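import Mathlib
import Pool.Agent.H836.HC.PartB2

set_option autoImplicit false
set_option linter.unusedSectionVars false

/-!
# Almost all value groups have the maximal order: the case of large index
-/

namespace Pool.Agent.H836.HM

open Finset
open Pool.Agent.H315R3.ETC Pool.Agent.TH673.VG Pool.Agent.Q6.EV Pool.Agent.H836.HC

open Classical

noncomputable section

variable {S : QData} (h : IsQuat S) [Fintype S.G] {v : ℕ}
  (hle : ∀ a : S.G, a ≠ 1 → (V S a).card ≤ v) {E : Finset S.G}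
  (hE : ∀ a : S.G, a ≠ 1 → a ∉ E → (V S a).card = v)

include h hle in
/-- the sum of the orders of the intersections -/
theorem sum_r_le (a : S.G) :
    ∑ b, (V S a ∩ V S b).card + v ≤ Fintype.card S.G + (V S a).card * v := by
  rw [sum_r h a, ← add_sum_erase (V S a) _ (one_mem_V h a), V_one h, card_univ]
  have h1 : ∑ x ∈ (V S a).erase 1, (V S x).card ≤ ((V S a).card - 1) * v := by
    have e1 : ((V S a).erase 1).card = (V S a).card - 1 := card_erase_of_mem (one_mem_V h a)
    rw [← e1, ← smul_eq_mul, ← sum_const]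
    exact sum_le_sum fun x hx => hle x (mem_erase.1 hx).1
  have h0 : 1 ≤ (V S a).card := card_pos.2 ⟨1, one_mem_V h a⟩
  obtain ⟨u, hu⟩ : ∃ u, (V S a).card = u + 1 := ⟨(V S a).card - 1, by omega⟩
  rw [hu, Nat.add_sub_cancel] at h1
  rw [hu]
  have : (u + 1) * v = u * v + v := by ring
  omega

include h hle in
/-- a good element -/
theorem exists_good {c : S.G} (hwv : 2 * (V S c).card ≤ v) (hv4 : 4 ≤ v) (hEv : E.card ≤ v)
    (hG : v * v ≤ Fintype.card S.G) :
    ∃ a : S.G, a ≠ 1 ∧ a ∉ E ∧ a ≠ c ∧ a * c ∉ E ∧ (V S a ∩ V S c).card = 1 := by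
  by_contra hcon
  push Not at hcon
  obtain ⟨w, hw⟩ : ∃ w, w = (V S c).card := ⟨_, rfl⟩
  rw [← hw] at hwv
  have hw0 : 1 ≤ w := by rw [hw]; exact card_pos.2 ⟨1, one_mem_V h _⟩
  have h1 := sum_r_le h hle c
  rw [← hw] at h1
  set X : Finset S.G := insert 1 (insert c (E ∪ E.image (fun x => x * c))) with hX
  have hXc : X.card ≤ 2 * E.card + 2 := by
    have e1 := card_insert_le (1 : S.G) (insert c (E ∪ E.image (fun x => x * c)))
    have e2 := card_insert_le c (E ∪ E.image (fun x => x * c))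
    have e3 := card_union_le E (E.image (fun x => x * c))
    have e4 : (E.image (fun x => x * c)).card ≤ E.card := card_image_le
    rw [hX]
    omega
  have hbad : ∀ b, b ∉ X → 2 ≤ (V S c ∩ V S b).card := by
    intro b hb
    rw [hX, mem_insert, mem_insert, mem_union, mem_image] at hb
    push Not at hb
    obtain ⟨b1, b2, b3, b4⟩ := hb
    have e1 := hcon b b1 b3 b2 (fun e => b4 _ e (by rw [mul_assoc, h.exp2, mul_one]))
    have e2 := one_mem_cap h c b
    rw [inter_comm] at e1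
    omega
  have h3 : 2 * Fintype.card S.G ≤ ∑ b, (V S c ∩ V S b).card + X.card := by
    have e1 : ∑ b : S.G, (if b ∈ X then 1 else 0) = X.card := by
      rw [← card_filter]
      congr 1
      ext x
      simp
    rw [← e1, ← sum_add_distrib, mul_comm, ← smul_eq_mul, ← card_univ, ← sum_const]
    refine sum_le_sum fun b _ => ?_
    have e2 := one_mem_cap h c b
    split_ifs with hb
    · omega
    · have := hbad b hb
      omega
  have h5 : Fintype.card S.G + v ≤ w * v + 2 * v + 2 := by omega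
  have h6 : 2 * (w * v) ≤ v * v := by
    calc 2 * (w * v) = (2 * w) * v := by ring
      _ ≤ v * v := Nat.mul_le_mul_right _ hwv
  have h7 : v * 4 ≤ v * v := Nat.mul_le_mul_left _ hv4
  omega

include h hle hE in
theorem stepA {c : S.G} (hwv : 2 * (V S c).card ≤ v) (hv8 : 8 ≤ v) (hEv : E.card ≤ v)
    {N : ℕ} (hNv : N * v = Fintype.card S.G) (hN : v ≤ N) : False := by
  have hG : v * v ≤ Fintype.card S.G := by rw [← hNv]; exact Nat.mul_le_mul_right _ hN
  obtain ⟨a, ha1, ha2, ha3, ha4, hr⟩ := exists_good h hle (E := E) hwv (by omega) hEv hG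
  obtain ⟨w, hw⟩ : ∃ w, w = (V S c).card := ⟨_, rfl⟩
  rw [← hw] at hwv
  have hva : (V S a).card = v := hE a ha1 ha2
  have hNa : (Qs S a).card = N := by
    have := card_Qs h a
    rw [hva, ← hNv] at this
    exact Nat.eq_of_mul_eq_mul_right (by omega) this
  have hvac : (V S (a * c)).card = v := hE _ (fun e => ha3 (eq_of_mul h _ _ e)) ha4
  have hxc : (Qs S a ∩ Qs S c).card = v := by
    have := card_QQ h a c
    rw [hr, mul_one, hvac] at this
    exact this
  obtain ⟨B, hB⟩ : ∃ B : Finset S.G, B = univ.filter (fun x => x ≠ 1 ∧ x ≠ a) := ⟨_, rfl⟩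
  have hBc : B.card + 2 = N * v := by
    have := sum_two ha1.symm (fun _ : S.G => 1)
    rw [← hB, sum_const, sum_const, card_univ, smul_eq_mul, smul_eq_mul, mul_one, mul_one] at this
    omega
  have hsr := sum_r_le h hle a
  rw [sum_two ha1.symm, V_inter_one h, inter_self, hva, ← hB, ← hNv] at hsr
  have hsx := sum_slots h a
  rw [sum_two ha1.symm, Qs_inter_one h, inter_self, hNa, ← hB, ← hNv] at hsx
  -- the comparison on `B`
  have hkey : ∀ b ∈ B, (3 * (v : ℤ)) - v * ((V S a ∩ V S b).card : ℤ) ≤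
      2 * ((Qs S a ∩ Qs S b).card : ℤ) + if a * b ∈ E then 2 * (v : ℤ) else 0 := by
    intro b hb
    rw [hB, mem_filter] at hb
    have e2 := one_mem_cap h a b
    split_ifs with hab
    · have e3 : (v : ℤ) * 1 ≤ v * ((V S a ∩ V S b).card : ℤ) :=
        mul_le_mul_of_nonneg_left (by exact_mod_cast e2) (by positivity)
      have e4 : (0 : ℤ) ≤ ((Qs S a ∩ Qs S b).card : ℤ) := by positivity
      linarith
    · have e1 : (Qs S a ∩ Qs S b).card * (V S a ∩ V S b).card = v := by
        rw [card_QQ h]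
        exact hE _ (fun e => hb.2.2 (eq_of_mul h _ _ e).symm) hab
      have := key1 e1 e2
      linarith
  have hkey2 := sum_le_sum hkey
  rw [sum_sub_distrib, sum_const, nsmul_eq_mul, ← mul_sum, sum_add_distrib, ← mul_sum,
    ← sum_filter, sum_const, nsmul_eq_mul] at hkey2
  have hEB : (B.filter (fun b => a * b ∈ E)).card ≤ E.card := by
    refine card_le_card_of_injOn (fun b => a * b) (fun b hb => ?_)
      (fun x _ y _ e => mul_left_cancel e)
    exact (mem_filter.1 hb).2
  -- the upper bound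
  set T := (Qs S a).erase S.zero with hT
  have hTc : T.card + 1 = N := by
    rw [hT, card_erase_of_mem (zero_mem_Qs h a), hNa]
    have : 0 < (Qs S a).card := card_pos.2 ⟨_, zero_mem_Qs h a⟩
    omega
  have hT1 : (T.filter (fun t => t ∈ Qs S c)).card + 1 = v := by
    have : T.filter (fun t => t ∈ Qs S c) = (Qs S a ∩ Qs S c).erase S.zero := by
      ext t
      rw [mem_filter, hT, mem_erase, mem_erase, mem_inter]
      tauto
    rw [this, card_erase_of_mem (mem_inter.2 ⟨zero_mem_Qs h a, zero_mem_Qs h _⟩), hxc]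
    omega
  have hT2 : (T.filter (fun t => t ∈ Qs S c)).card +
      (T.filter (fun t => ¬ t ∈ Qs S c)).card = T.card := by
    rw [card_filter_add_card_filter_not]
  have hne0 : ∀ t ∈ T, ∀ x, x ∈ X S t → x ≠ 1 := by
    rintro t ht x hx rfl
    obtain ⟨z, hz⟩ := mem_X.1 hx
    rw [hT, mem_erase] at ht
    exact ht.1 (hz.symm.trans (q_one' h z))
  have hslots : ∀ t ∈ T, ∀ s, t ∈ Qs S s → (X S t).card ≤ 1 + (V S s).card * (v - 1) := by
    intro t ht s hs
    have m1 : s ∈ X S t := mem_X.2 (mem_Qs.1 hs)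
    refine (slots_le h m1).trans (Nat.add_le_add_left ?_ _)
    obtain ⟨z0, hz0⟩ := mem_Qs.1 hs
    have e1 : (C S t s).card = (V S s).card := card_C h hz0
    rw [← e1, ← smul_eq_mul, ← sum_const]
    refine sum_le_sum fun z hz => ?_
    have m2 : z ∈ X S t := mem_X.2 ⟨s, by rw [h.qs2]; exact mem_C.1 hz⟩
    have := hle z (hne0 t ht z m2)
    omega
  have hup : ∑ t ∈ T, (X S t).card ≤
      (T.filter (fun t => t ∈ Qs S c)).card * (1 + w * (v - 1)) +
      (T.filter (fun t => ¬ t ∈ Qs S c)).card * (1 + v * (v - 1)) := by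
    rw [← sum_filter_add_sum_filter_not T (fun t => t ∈ Qs S c)]
    refine Nat.add_le_add ?_ ?_
    · rw [← smul_eq_mul, ← sum_const]
      refine sum_le_sum fun t ht => ?_
      rw [mem_filter] at ht
      have := hslots t ht.1 c ht.2
      rwa [← hw] at this
    · rw [← smul_eq_mul, ← sum_const]
      refine sum_le_sum fun t ht => ?_
      rw [mem_filter] at ht
      have e1 : t ∈ Qs S a := by
        have := ht.1
        rw [hT, mem_erase] at this
        exact this.2
      have := hslots t ht.1 a e1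
      rwa [hva] at this
  -- integers
  obtain ⟨p, hp⟩ : ∃ p, p = (T.filter (fun t => t ∈ Qs S c)).card := ⟨_, rfl⟩
  obtain ⟨p', hp'⟩ : ∃ p', p' = (T.filter (fun t => ¬ t ∈ Qs S c)).card := ⟨_, rfl⟩
  obtain ⟨σ, hσ⟩ : ∃ σ, σ = ∑ t ∈ T, (X S t).card := ⟨_, rfl⟩
  obtain ⟨x, hx⟩ : ∃ x, x = ∑ b ∈ B, (Qs S a ∩ Qs S b).card := ⟨_, rfl⟩
  obtain ⟨r, hr1⟩ : ∃ r, r = ∑ b ∈ B, (V S a ∩ V S b).card := ⟨_, rfl⟩
  obtain ⟨e, he⟩ : ∃ e, e = (B.filter (fun b => a * b ∈ E)).card := ⟨_, rfl⟩
  have hxz : (x : ℤ) = ∑ b ∈ B, ((Qs S a ∩ Qs S b).card : ℤ) := by rw [hx]; push_cast; rfl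
  have hrz : (r : ℤ) = ∑ b ∈ B, ((V S a ∩ V S b).card : ℤ) := by rw [hr1]; push_cast; rfl
  rw [← hxz, ← hrz, ← he] at hkey2
  rw [← hp, ← hp', ← hσ] at hup
  rw [← hσ, ← hx] at hsx
  rw [← hr1] at hsr
  rw [← hp] at hT1 hT2
  rw [← hp'] at hT2
  rw [← he] at hEB
  have hupz : (σ : ℤ) ≤ p * (1 + w * (v - 1)) + p' * (1 + v * (v - 1)) := by
    have h1 : ((v - 1 : ℕ) : ℤ) = (v : ℤ) - 1 := by
      rw [Nat.cast_sub (by omega)]; norm_num
    have : (σ : ℤ) ≤ ((p * (1 + w * (v - 1)) + p' * (1 + v * (v - 1)) : ℕ) : ℤ) := by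
      exact_mod_cast hup
    push_cast at this
    rw [h1] at this
    exact this
  have z1 : (σ : ℤ) + N * v = 1 + N + x := by exact_mod_cast hsx
  have z2 : (v : ℤ) + v + r + v ≤ N * v + v * v := by exact_mod_cast hsr
  have z3 : (p : ℤ) = v - 1 := by omega
  have z4 : (p' : ℤ) = N - v := by omega
  have z5 : (B.card : ℤ) = N * v - 2 := by
    have : ((B.card + 2 : ℕ) : ℤ) = ((N * v : ℕ) : ℤ) := by rw [hBc]
    push_cast at this
    linarith
  have z6 : 2 * (w : ℤ) ≤ v := by exact_mod_cast hwv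
  have z7 : (8 : ℤ) ≤ v := by exact_mod_cast hv8
  have z8 : (e : ℤ) ≤ v := by exact_mod_cast hEB.trans hEv
  rw [z5] at hkey2
  rw [z3, z4] at hupz
  clear hkey hslots hne0
  clear_value T
  have z9 : (v : ℤ) * r ≤ v * (N * v + v * v - 3 * v) :=
    mul_le_mul_of_nonneg_left (by linarith) (by linarith)
  have z10 : 2 * (w : ℤ) * (v - 1) ^ 2 ≤ v * (v - 1) ^ 2 :=
    mul_le_mul_of_nonneg_right z6 (sq_nonneg _)
  have z11 : (e : ℤ) * (2 * v) ≤ v * (2 * v) := mul_le_mul_of_nonneg_right z8 (by linarith)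
  have z12 : (x : ℤ) = σ + N * v - 1 - N := by linarith
  rw [z12] at hkey2
  have z13 : 0 ≤ 2 * (((v : ℤ) - 1) * (1 + w * (v - 1)) + (N - v) * (1 + v * (v - 1))) +
      2 * (N * v - 1 - N) + v * (2 * v) -
      ((N * v - 2) * (3 * v) - v * (N * v + v * v - 3 * v)) := by linarith
  have z14 : 2 * (((v : ℤ) - 1) * (1 + w * (v - 1)) + (N - v) * (1 + v * (v - 1))) +
      2 * (N * v - 1 - N) + v * (2 * v) -
      ((N * v - 2) * (3 * v) - v * (N * v + v * v - 3 * v)) =
      (2 * (w : ℤ) * (v - 1) ^ 2 - v * (v - 1) ^ 2) - (v * (v - 8) + v + 4) := by ring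
  rw [z14] at z13
  have z15 : 0 ≤ (v : ℤ) * (v - 8) := mul_nonneg (by linarith) (by linarith)
  linarith

end

end Pool.Agent.H836.HM
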