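import Mathlib
import Pool.Agent.H836.HM.StepA

set_option autoImplicit false
set_option linter.unusedSectionVars false

/-!
# Almost all value groups have the maximal order: the case of small index
-/

namespace Pool.Agent.H836.HM

open Finset
open Pool.Agent.H315R3.ETC Pool.Agent.TH673.VG Pool.Agent.Q6.EV Pool.Agent.H836.HC

open Classical

noncomputable section

variable {S : QData} (h : IsQuat S) [Fintype S.G] {v : ℕ}
  (hle : ∀ a : S.G, a ≠ 1 → (V S a).card ≤ v) {E : Finset S.G}
  (hE : ∀ a : S.G, a ≠ 1 → a ∉ E → (V S a).card = v)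

include h hle in
/-- a good element -/
theorem exists_goodL (h1E : (1 : S.G) ∉ E) {N : ℕ} (hNv : N * v = Fintype.card S.G)
    (hN4 : 4 ≤ N) (h2N : 2 * N ≤ v) (hEN : 2 * E.card ≤ N) :
    ∃ a : S.G, a ≠ 1 ∧ a ∉ E ∧ (∀ x ∈ E, x ∉ V S a) ∧ ∀ x ∈ E, ∀ y ∈ E, a ≠ x * y := by
  set X : Finset S.G := insert 1 (E ∪ ((E ×ˢ E).image (fun p => p.1 * p.2) ∪
    E.biUnion (fun x => V S x))) with hX
  have hXc : X.card ≤ 1 + (E.card + (E.card * E.card + E.card * v)) := by
    have e1 := card_insert_le (1 : S.G) (E ∪ ((E ×ˢ E).image (fun p => p.1 * p.2) ∪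
      E.biUnion (fun x => V S x)))
    have e2 := card_union_le E ((E ×ˢ E).image (fun p => p.1 * p.2) ∪
      E.biUnion (fun x => V S x))
    have e3 := card_union_le ((E ×ˢ E).image (fun p => p.1 * p.2))
      (E.biUnion (fun x => V S x))
    have e4 : ((E ×ˢ E).image (fun p => p.1 * p.2)).card ≤ E.card * E.card := by
      rw [← card_product]
      exact card_image_le
    have e5 : (E.biUnion (fun x => V S x)).card ≤ E.card * v := by
      refine card_biUnion_le.trans ?_
      rw [← smul_eq_mul, ← sum_const]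
      exact sum_le_sum fun x hx => hle x (by rintro rfl; exact h1E hx)
    rw [hX]
    omega
  have hlt : X.card < Fintype.card S.G := by
    rw [← hNv]
    refine lt_of_le_of_lt hXc ?_
    have n1 : 2 * (E.card * v) ≤ N * v := by
      calc 2 * (E.card * v) = (2 * E.card) * v := by ring
        _ ≤ N * v := Nat.mul_le_mul_right _ hEN
    have n2 : 4 * (E.card * E.card) ≤ N * N := by
      calc 4 * (E.card * E.card) = (2 * E.card) * (2 * E.card) := by ring
        _ ≤ N * N := Nat.mul_le_mul hEN hEN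
    have n3 : 2 * (N * N) ≤ N * v := by
      calc 2 * (N * N) = N * (2 * N) := by ring
        _ ≤ N * v := Nat.mul_le_mul_left _ h2N
    have n4 : N * 8 ≤ N * v := Nat.mul_le_mul_left _ (by omega)
    omega
  obtain ⟨a, ha⟩ : ∃ a, a ∉ X := by
    by_contra hcon
    push Not at hcon
    have : X = univ := eq_univ_iff_forall.2 hcon
    rw [this, card_univ] at hlt
    exact lt_irrefl _ hlt
  rw [hX, mem_insert, mem_union, mem_union, mem_biUnion, mem_image] at ha
  push Not at ha
  obtain ⟨a1, a2, a3, a4⟩ := ha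
  refine ⟨a, a1, a2, fun x hx hxa => a4 x hx ((V_symm h).1 hxa), fun x hx y hy e => ?_⟩
  exact a3 (x, y) (mem_product.2 ⟨hx, hy⟩) e.symm

include h hle hE in
theorem stepL (h1E : (1 : S.G) ∉ E) {k l N : ℕ} (hk : v = 2 ^ k) (hl : N = 2 ^ l)
    (hNv : N * v = Fintype.card S.G) (hN4 : 4 ≤ N) (h2N : 2 * N ≤ v)
    (hEN : 2 * E.card ≤ N) : False := by
  have hv0 : 0 < v := by omega
  obtain ⟨a, ha1, ha2, ha3, ha4⟩ := exists_goodL h hle h1E hNv hN4 h2N hEN
  have hva : (V S a).card = v := hE a ha1 ha2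
  have cQ : ∀ {b : S.G}, b ≠ 1 → b ∉ E → (Qs S b).card = N := by
    intro b b1 b2
    have := card_Qs h b
    rw [hE b b1 b2, ← hNv] at this
    exact Nat.eq_of_mul_eq_mul_right hv0 this
  have hNa : (Qs S a).card = N := cQ ha1 ha2
  -- the elements with the same quaternions as `a`
  obtain ⟨A, hA⟩ : ∃ A : Finset S.G, A = univ.filter (fun b => Qs S b = Qs S a) := ⟨_, rfl⟩
  have hmA : ∀ b, b ∈ A ↔ Qs S b = Qs S a := by intro b; rw [hA]; simp
  have hVA : ∀ b ∈ A, (V S b).card = v := by
    intro b hb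
    have := card_Qs h b
    rw [(hmA b).1 hb, hNa, ← hNv] at this
    exact Nat.eq_of_mul_eq_mul_left (by omega) this
  have hA1 : (1 : S.G) ∉ A := by
    intro hc
    have e1 := congrArg Finset.card ((hmA 1).1 hc)
    rw [Qs_one h, card_singleton, hNa] at e1
    omega
  -- the sum of the `r`
  obtain ⟨B, hB⟩ : ∃ B : Finset S.G, B = univ.filter (fun x => x ≠ 1 ∧ x ≠ a) := ⟨_, rfl⟩
  have hBc : B.card + 2 = N * v := by
    have := sum_two ha1.symm (fun _ : S.G => 1)
    rw [← hB, sum_const, sum_const, card_univ, smul_eq_mul, smul_eq_mul, mul_one, mul_one] at this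
    omega
  have hsr : ∑ b ∈ B, (V S a ∩ V S b).card + 3 * v = N * v + v * v := by
    have e0 : ∑ x ∈ (V S a).erase 1, (V S x).card = (v - 1) * v := by
      rw [sum_const_nat (m := v), card_erase_of_mem (one_mem_V h a), hva]
      intro x hx
      rw [mem_erase] at hx
      exact hE x hx.1 fun e => ha3 x e hx.2
    have e1 := sum_r h a
    rw [sum_two ha1.symm, V_inter_one h, inter_self, hva, ← hB,
      ← add_sum_erase (V S a) _ (one_mem_V h a), V_one h, card_univ, ← hNv, e0] at e1
    obtain ⟨v', rfl⟩ : ∃ v', v = v' + 1 := ⟨v - 1, by omega⟩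
    rw [Nat.add_sub_cancel] at e1
    have : (v' + 1) * (v' + 1) = v' * (v' + 1) + (v' + 1) := by ring
    omega
  -- the lower bound
  have hlow : ∀ b ∈ B, 2 * v ≤ N * (V S a ∩ V S b).card +
      ((if b ∈ A then v else 0) + ((if b ∈ E then 2 * v else 0) +
      if a * b ∈ E then 2 * v else 0)) := by
    intro b hb
    rw [hB, mem_filter] at hb
    obtain ⟨_, b1, b2⟩ := hb
    by_cases c1 : b ∈ E
    · rw [if_pos c1]; omega
    by_cases c2 : a * b ∈ E
    · rw [if_pos c2]; omega
    rw [if_neg c1, if_neg c2]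
    have e1 : (Qs S a ∩ Qs S b).card * (V S a ∩ V S b).card = v := by
      rw [card_QQ h]
      exact hE _ (fun e => b2 (eq_of_mul h _ _ e).symm) c2
    by_cases c3 : b ∈ A
    · rw [if_pos c3]
      rw [(hmA b).1 c3, inter_self, hNa] at e1
      omega
    · rw [if_neg c3]
      have e2 : (Qs S a ∩ Qs S b).card < N := by
        by_contra hc
        push Not at hc
        have e3 : Qs S a ∩ Qs S b = Qs S a := eq_of_subset_of_card_le inter_subset_left (by omega)
        have e4 : Qs S a ∩ Qs S b = Qs S b :=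
          eq_of_subset_of_card_le inter_subset_right (by rw [cQ b1 c1]; exact hc)
        exact c3 ((hmA b).2 (e4.symm.trans e3))
      obtain ⟨s, _, hs⟩ := (Nat.dvd_prime_pow Nat.prime_two).1
        (show (Qs S a ∩ Qs S b).card ∣ 2 ^ k from hk ▸ Dvd.intro _ e1)
      rw [hs, hl] at e2
      have e3 : s < l := (Nat.pow_lt_pow_iff_right (by norm_num)).1 e2
      have e4 : 2 * (Qs S a ∩ Qs S b).card ≤ N := by
        rw [hs, hl]
        calc 2 * 2 ^ s = 2 ^ (s + 1) := by rw [pow_succ]; ring
          _ ≤ 2 ^ l := Nat.pow_le_pow_right (by norm_num) e3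
      have e5 : 2 * v ≤ N * (V S a ∩ V S b).card := by
        calc 2 * v = (2 * (Qs S a ∩ Qs S b).card) * (V S a ∩ V S b).card := by
              rw [mul_assoc, e1]
          _ ≤ N * (V S a ∩ V S b).card := Nat.mul_le_mul_right _ e4
      omega
  have hlow2 := sum_le_sum hlow
  rw [sum_const, smul_eq_mul, sum_add_distrib, sum_add_distrib, sum_add_distrib, ← mul_sum,
    ← sum_filter, ← sum_filter, ← sum_filter, sum_const, sum_const, sum_const, smul_eq_mul,
    smul_eq_mul, smul_eq_mul] at hlow2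
  have hE1 : (B.filter (fun b => b ∈ E)).card ≤ E.card :=
    card_le_card fun b hb => (mem_filter.1 hb).2
  have hE2 : (B.filter (fun b => a * b ∈ E)).card ≤ E.card := by
    refine card_le_card_of_injOn (fun b => a * b) (fun b hb => ?_)
      (fun x _ y _ e => mul_left_cancel e)
    exact (mem_filter.1 hb).2
  have hAc : (B.filter (fun b => b ∈ A)).card + 1 ≤ A.card := by
    have : insert a (B.filter (fun b => b ∈ A)) ⊆ A := by
      intro x hx
      rw [mem_insert, mem_filter] at hx
      rcases hx with rfl | hx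
      · exact (hmA _).2 rfl
      · exact hx.2
    refine le_trans (le_of_eq ?_) (card_le_card this)
    rw [card_insert_of_notMem]
    rw [mem_filter, hB, mem_filter]
    tauto
  obtain ⟨R, hR⟩ : ∃ R, R = ∑ b ∈ B, (V S a ∩ V S b).card := ⟨_, rfl⟩
  obtain ⟨e', he'⟩ : ∃ e', e' = (B.filter (fun b => b ∈ A)).card := ⟨_, rfl⟩
  obtain ⟨e1, he1⟩ : ∃ e1, e1 = (B.filter (fun b => b ∈ E)).card := ⟨_, rfl⟩
  obtain ⟨e2, he2⟩ : ∃ e2, e2 = (B.filter (fun b => a * b ∈ E)).card := ⟨_, rfl⟩
  obtain ⟨e, he⟩ : ∃ e, e = E.card := ⟨_, rfl⟩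
  rw [← hR] at hsr hlow2
  rw [← he'] at hlow2 hAc
  rw [← he1] at hlow2 hE1
  rw [← he2] at hlow2 hE2
  rw [← he] at hE1 hE2 hEN
  have z1 : (B.card : ℤ) = N * v - 2 := by
    have : ((B.card + 2 : ℕ) : ℤ) = ((N * v : ℕ) : ℤ) := by rw [hBc]
    push_cast at this
    linarith
  have z2 : (R : ℤ) = N * v + v * v - 3 * v := by
    have : (R : ℤ) + 3 * v = N * v + v * v := by exact_mod_cast hsr
    linarith
  have z3 : (B.card : ℤ) * (2 * v) ≤ N * R + (e' * v + (e1 * (2 * v) + e2 * (2 * v))) := by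
    exact_mod_cast hlow2
  have z4 : (e1 : ℤ) ≤ e := by exact_mod_cast hE1
  have z5 : (e2 : ℤ) ≤ e := by exact_mod_cast hE2
  have z6 : 2 * (e : ℤ) ≤ N := by exact_mod_cast hEN
  have z7 : (4 : ℤ) ≤ N := by exact_mod_cast hN4
  have z8 : 2 * (N : ℤ) ≤ v := by exact_mod_cast h2N
  have z9 : (0 : ℤ) < v := by exact_mod_cast hv0
  have hbig : Fintype.card S.G < 2 * A.card := by
    rw [z1, z2] at z3
    have y1 : (v : ℤ) * (2 * (N * v - 2) - N * (N + v - 3) - e' - 2 * e1 - 2 * e2) ≤ 0 := by
      have : (v : ℤ) * (2 * (N * v - 2) - N * (N + v - 3) - e' - 2 * e1 - 2 * e2) =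
        (N * v - 2) * (2 * v) - (N * (N * v + v * v - 3 * v) +
          (e' * v + (e1 * (2 * v) + e2 * (2 * v)))) := by ring
      rw [this]
      linarith
    have y2 : 2 * ((N : ℤ) * v - 2) - N * (N + v - 3) - e' - 2 * e1 - 2 * e2 ≤ 0 := by
      by_contra hc
      push Not at hc
      have := mul_pos z9 hc
      linarith
    have y3 : (N : ℤ) * (2 * N) ≤ N * v := mul_le_mul_of_nonneg_left z8 (by linarith)
    have y4 : (N : ℤ) * v < 2 * (e' + 1) := by nlinarith
    have y5 : N * v < 2 * (e' + 1) := by exact_mod_cast y4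
    rw [← hNv]
    omega
  -- all other elements have the same quaternions
  have hall : ∀ y : S.G, y ≠ 1 → y ∉ E → y ∈ A := by
    intro y hy1 hy2
    have e1 : (A ∩ A.image (fun b => y * b)).Nonempty := by
      rw [← card_pos]
      have e2 : (A.image (fun b => y * b)).card = A.card :=
        card_image_of_injective _ (mul_right_injective y)
      have e3 := card_union_add_card_inter A (A.image (fun b => y * b))
      have e4 : (A ∪ A.image (fun b => y * b)).card ≤ Fintype.card S.G := card_le_univ _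
      omega
    obtain ⟨b, hb⟩ := e1
    rw [mem_inter, mem_image] at hb
    obtain ⟨hb, b', hb', e2⟩ := hb
    have e3 : y = b * b' := by rw [← e2, mul_assoc, h.exp2, mul_one]
    have e6 : N * (V S b ∩ V S b').card = v := by
      have := card_QQ h b b'
      rw [(hmA b).1 hb, (hmA b').1 hb', inter_self, hNa, ← e3, hE y hy1 hy2] at this
      exact this
    have e7 := card_QQ h b y
    have e8 : V S b ∩ V S y = V S b ∩ V S b' := by rw [e3, cap_mul h]
    have e9 : b * y = b' := by rw [e3, ← mul_assoc, h.exp2, one_mul]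
    rw [e8, e9, hVA b' hb', ← e6] at e7
    have e10 : 0 < (V S b ∩ V S b').card := one_mem_cap h b b'
    have e11 : (Qs S b ∩ Qs S y).card = N := Nat.eq_of_mul_eq_mul_right e10 e7
    have c1 : (Qs S b).card = N := by rw [(hmA b).1 hb, hNa]
    have c2 := cQ hy1 hy2
    have e12 : Qs S b ∩ Qs S y = Qs S b :=
      eq_of_subset_of_card_le inter_subset_left (by omega)
    have e13 : Qs S b ∩ Qs S y = Qs S y :=
      eq_of_subset_of_card_le inter_subset_right (by omega)
    exact (hmA y).2 ((e13.symm.trans e12).trans ((hmA b).1 hb))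
  -- the upper bound
  have hup : ∀ b ∈ B, N * (V S a ∩ V S b).card ≤ v := by
    intro b hb
    rw [hB, mem_filter] at hb
    obtain ⟨_, b1, b2⟩ := hb
    have hab1 : a * b ≠ 1 := fun e => b2 (eq_of_mul h _ _ e).symm
    by_cases c1 : b ∈ E
    · have c2 : a * b ∉ E := fun e => ha4 (a * b) e b c1 (by rw [mul_assoc, h.exp2, mul_one])
      have e1 := card_QQ h a (a * b)
      rw [(hmA _).1 (hall _ hab1 c2), inter_self, hNa, cap_mul h, ← mul_assoc, h.exp2,
        one_mul] at e1
      rw [e1]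
      exact hle b b1
    · have e1 := card_QQ h a b
      rw [(hmA _).1 (hall _ b1 c1), inter_self, hNa] at e1
      rw [e1]
      exact hle _ hab1
  have hup2 := sum_le_sum hup
  rw [← mul_sum, ← hR, sum_const, smul_eq_mul] at hup2
  have z10 : (N : ℤ) * R ≤ B.card * v := by exact_mod_cast hup2
  rw [z1, z2] at z10
  have z11 : (v : ℤ) * ((N - 1) * (N - 2)) ≤ 0 := by
    have : (v : ℤ) * ((N - 1) * (N - 2)) =
      N * (N * v + v * v - 3 * v) - (N * v - 2) * v := by ring
    rw [this]
    linarith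
  have z12 : 0 < (v : ℤ) * ((N - 1) * (N - 2)) :=
    mul_pos z9 (mul_pos (by linarith) (by linarith))
  linarith

end

end Pool.Agent.H836.HM
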