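import Mathlib
import Pool.Agent.H836.HM.StepL
import Pool.Agent.H836.HC.Final

set_option autoImplicit false
set_option linter.unusedSectionVars false

/-!
# Almost all value groups have the maximal order: the theorem
-/

namespace Pool.Agent.H836.HM

open Finset
open Pool.Agent.H315R3.ETC Pool.Agent.TH673.VG Pool.Agent.Q6.EV Pool.Agent.H836.HC

open Classical

noncomputable section

/-- the counting theorem -/
theorem few_bound {S : QData} (h : IsQuat S) [Fintype S.G] {v : ℕ}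
    (hle : ∀ a : S.G, a ≠ 1 → (V S a).card ≤ v) {E : Finset S.G}
    (hE : ∀ a : S.G, a ≠ 1 → a ∉ E → (V S a).card = v) (h1E : (1 : S.G) ∉ E)
    (hEG : 2 * E.card * v ≤ Fintype.card S.G) (hEv : E.card ≤ v) :
    v ≤ 4 ∨ Fintype.card S.G ≤ 2 * v := by
  by_cases hall : ∀ a : S.G, a ≠ 1 → (V S a).card = v
  · exact (Pool.Agent.Q6.EV.small_or_large h hall).imp_left (fun e => by omega)
  push Not at hall
  obtain ⟨c, hc1, hcv⟩ := hall
  by_contra hcon
  push Not at hcon
  obtain ⟨hv5, hG⟩ := hcon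
  obtain ⟨n, hn⟩ := card_pow h
  -- an element outside `E`
  obtain ⟨a, ha1, ha2⟩ : ∃ a : S.G, a ≠ 1 ∧ a ∉ E := by
    by_contra hc
    push Not at hc
    have hsub : (univ : Finset S.G) ⊆ insert 1 E := by
      intro a _
      rw [mem_insert]
      by_cases e1 : a = 1
      · exact Or.inl e1
      · exact Or.inr (hc a e1)
    have e1 := card_le_card hsub
    have e2 := card_insert_le (1 : S.G) E
    rw [card_univ] at e1
    have e3 : 2 * E.card * 5 ≤ 2 * E.card * v := Nat.mul_le_mul_left _ hv5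
    omega
  have hva := hE a ha1 ha2
  have hpow : ∀ {u : ℕ}, u ∣ Fintype.card S.G → ∃ j, u = 2 ^ j := by
    intro u hu
    rw [hn] at hu
    obtain ⟨j, _, hj⟩ := (Nat.dvd_prime_pow Nat.prime_two).1 hu
    exact ⟨j, hj⟩
  obtain ⟨k, hk⟩ := hpow (hva ▸ V_dvd h a)
  obtain ⟨j, hj⟩ := hpow (V_dvd h c)
  obtain ⟨N, hN⟩ : ∃ N, N = (Qs S a).card := ⟨_, rfl⟩
  have hNv : N * v = Fintype.card S.G := by rw [hN, ← hva, card_Qs h]
  obtain ⟨l, hl⟩ := hpow (Dvd.intro _ hNv)
  have hN3 : 2 < N := by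
    by_contra hc
    push Not at hc
    have : N * v ≤ 2 * v := Nat.mul_le_mul_right _ hc
    omega
  have hl2 : 2 ≤ l := by
    by_contra hc
    rcases (by omega : l = 0 ∨ l = 1) with e | e <;> rw [e] at hl <;> omega
  have hN4 : 4 ≤ N := by
    rw [hl]
    calc 4 = 2 ^ 2 := by norm_num
      _ ≤ 2 ^ l := Nat.pow_le_pow_right (by norm_num) hl2
  have hk3 : 3 ≤ k := by
    by_contra hc
    rcases (by omega : k = 0 ∨ k = 1 ∨ k = 2) with e | e | e <;> rw [e] at hk <;> omega
  have hv8 : 8 ≤ v := by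
    rw [hk]
    calc 8 = 2 ^ 3 := by norm_num
      _ ≤ 2 ^ k := Nat.pow_le_pow_right (by norm_num) hk3
  have hEN : 2 * E.card ≤ N := by
    rw [← hNv] at hEG
    exact Nat.le_of_mul_le_mul_right hEG (by omega)
  have hw : 2 * (V S c).card ≤ v := by
    have hlt : (V S c).card < v := lt_of_le_of_ne (hle c hc1) hcv
    rw [hj, hk] at hlt
    have : j < k := (Nat.pow_lt_pow_iff_right (by norm_num)).1 hlt
    rw [hj, hk]
    calc 2 * 2 ^ j = 2 ^ (j + 1) := by rw [pow_succ]; ring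
      _ ≤ 2 ^ k := Nat.pow_le_pow_right (by norm_num) this
  by_cases hNN : v ≤ N
  · exact stepA h hle hE hw hv8 hEv hNv hNN
  · have h2N : 2 * N ≤ v := by
      have : l < k := by
        by_contra hc
        exact hNN (by rw [hk, hl]; exact Nat.pow_le_pow_right (by norm_num) (by omega))
      rw [hk, hl]
      calc 2 * 2 ^ l = 2 ^ (l + 1) := by rw [pow_succ]; ring
        _ ≤ 2 ^ k := Nat.pow_le_pow_right (by norm_num) this
    exact stepL h hle hE h1E hk hl hNv hN4 h2N hEN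

theorem few_elem {S : QData} (h : IsQuat S) [Fintype S.G] {v : ℕ}
    (hle : ∀ a : S.G, a ≠ 1 → (V S a).card ≤ v) {E : Finset S.G}
    (hE : ∀ a : S.G, a ≠ 1 → a ∉ E → (V S a).card = v) (h1E : (1 : S.G) ∉ E)
    (hEG : 2 * E.card * v ≤ Fintype.card S.G) (hEv : E.card ≤ v) : Elem S := by
  rcases few_bound h hle hE h1E hEG hEv with h1 | h1
  · refine Pool.Agent.K3h83.ET.elem_one _ S h inferInstance le_rfl 1 fun a ha _ _ => ?_
    have e1 : Pool.Agent.Y920.ETC.vs S a = (V S a).card := ncard_V a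
    rw [e1]
    exact (hle a ha).trans h1
  · have hG0 : 0 < Fintype.card S.G := Fintype.card_pos_iff.2 ⟨1⟩
    have hv0 : 0 < v := by omega
    have h2 : E.card ≤ 1 := by
      have : (2 * E.card) * v ≤ 2 * v := hEG.trans h1
      have := Nat.le_of_mul_le_mul_right this hv0
      omega
    obtain ⟨c, hc⟩ : ∃ c : S.G, E ⊆ {c} := by
      rcases E.eq_empty_or_nonempty with e | ⟨c, hc⟩
      · exact ⟨1, by rw [e]; exact empty_subset _⟩
      · exact ⟨c, fun x hx => mem_singleton.2 (card_le_one.1 h2 x hx c hc)⟩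
    refine elem_of_indexTwo h (c := c) fun a ha ha' => indexTwo_of h ?_
    rw [hE a ha fun e => ha' (mem_singleton.1 (hc e))]
    exact h1

/-- the preimage of a set of classes modulo the radical -/
theorem card_preimage {S : QData} (h : IsQuat S) [Fintype S.G] [Fintype (Quo h).G]
    (E : Finset (Quo h).G) :
    Nat.card (Rad h) * E.card ≤ (univ.filter (fun a : S.G => pi h a ∈ E)).card := by
  have hfib := card_eq_sum_card_fiberwise (s := univ.filter (fun a : S.G => pi h a ∈ E))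
    (f := fun a => pi h a) (t := E) (fun a ha => (mem_filter.1 ha).2)
  rw [hfib, mul_comm, ← smul_eq_mul, ← sum_const]
  refine sum_le_sum fun y hy => ?_
  obtain ⟨b, rfl⟩ := pi_surj h y
  rw [Nat.card_eq_fintype_card, ← card_univ]
  refine card_le_card_of_injOn (fun r : Rad h => b * (r : S.G)) (fun r _ => ?_) ?_
  · have e1 : pi h (b * (r : S.G)) = pi h b := by
      rw [map_mul, (pi_one h).2 r.2, mul_one]
    refine mem_filter.2 ⟨mem_filter.2 ⟨mem_univ _, ?_⟩, e1⟩
    rw [e1]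
    exact hy
  · intro r _ s _ e
    exact Subtype.ext (mul_left_cancel e)

/-- **Main theorem** -/
theorem main'' {S : QData} (h : IsQuat S) (hfin : Finite S.G) (a₀ : S.G)
    (hmax : ∀ a : S.G, (∃ x, S.q a x ≠ S.zero) →
      {x : S.G | S.q a x = S.zero}.ncard ≤ {x : S.G | S.q a₀ x = S.zero}.ncard)
    (hX : {a : S.G | (∃ x, S.q a x ≠ S.zero) ∧ {x : S.G | S.q a x = S.zero}.ncard ≠
      {x : S.G | S.q a₀ x = S.zero}.ncard}.ncard ≤ {x : S.G | S.q a₀ x = S.zero}.ncard)
    (hX2 : 2 * {a : S.G | (∃ x, S.q a x ≠ S.zero) ∧ {x : S.G | S.q a x = S.zero}.ncard ≠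
      {x : S.G | S.q a₀ x = S.zero}.ncard}.ncard * {x : S.G | S.q a₀ x = S.zero}.ncard ≤
      {r : S.G | ∀ x, S.q r x = S.zero}.ncard * Nat.card S.G) :
    Elem S ∧
      ({x : S.G | S.q a₀ x = S.zero}.ncard ≤ 4 * {r : S.G | ∀ x, S.q r x = S.zero}.ncard ∨
      Nat.card S.G ≤ 2 * {x : S.G | S.q a₀ x = S.zero}.ncard) := by
  have : Fintype S.G := Fintype.ofFinite _
  have hfq : Finite (Quo h).G := Finite.of_surjective _ (pi_surj h)
  have : Fintype (Quo h).G := Fintype.ofFinite _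
  have hQ := quo_isQuat h
  have hR : ∀ a : S.G, pi h a ≠ 1 ↔ ∃ x, S.q a x ≠ S.zero := by
    intro a
    rw [Ne, pi_one, mem_Rad]
    push Not
    exact Iff.rfl
  obtain ⟨r, hr⟩ : ∃ r, r = Nat.card (Rad h) := ⟨_, rfl⟩
  have hr0 : 0 < r := by rw [hr]; exact Nat.card_pos
  obtain ⟨v, hv⟩ : ∃ v, v = (V (Quo h) (pi h a₀)).card := ⟨_, rfl⟩
  have e1 : {r : S.G | ∀ x, S.q r x = S.zero}.ncard = r := by rw [hr]; rfl
  have e3 : Nat.card S.G = Fintype.card (Quo h).G * r := by
    rw [hr, ← Nat.card_eq_fintype_card]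
    exact Subgroup.card_eq_card_quotient_mul_card_subgroup (Rad h)
  have e5 : ∀ a : S.G, {x : S.G | S.q a x = S.zero}.ncard = (V (Quo h) (pi h a)).card * r := by
    intro a
    rw [ncard_V, card_quo h a, hr]
  set E : Finset (Quo h).G := univ.filter (fun y => y ≠ 1 ∧ (V (Quo h) y).card ≠ v) with hEdef
  have hXE : {a : S.G | (∃ x, S.q a x ≠ S.zero) ∧ {x : S.G | S.q a x = S.zero}.ncard ≠
      {x : S.G | S.q a₀ x = S.zero}.ncard}.ncard =
      (univ.filter (fun a : S.G => pi h a ∈ E)).card := by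
    rw [← Set.ncard_coe_finset]
    congr 1
    ext a
    rw [Set.mem_ofPred_eq, mem_coe, mem_filter, hEdef, mem_filter, e5, e5, ← hv, ← hR]
    have : (V (Quo h) (pi h a)).card * r ≠ v * r ↔ (V (Quo h) (pi h a)).card ≠ v :=
      not_congr ⟨fun e => Nat.eq_of_mul_eq_mul_right hr0 e, fun e => by rw [e]⟩
    rw [this]
    simp only [mem_univ, true_and]
  have hpre := card_preimage h E
  rw [← hr] at hpre
  rw [hXE, e5, ← hv] at hX hX2
  rw [e1, e3] at hX2
  have hEv : E.card ≤ v := by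
    refine Nat.le_of_mul_le_mul_right ?_ hr0
    rw [mul_comm]
    exact hpre.trans hX
  have hEG : 2 * E.card * v ≤ Fintype.card (Quo h).G := by
    refine Nat.le_of_mul_le_mul_right ?_ (Nat.mul_pos hr0 hr0)
    calc 2 * E.card * v * (r * r) = 2 * (r * E.card) * (v * r) := by ring
      _ ≤ 2 * (univ.filter (fun a : S.G => pi h a ∈ E)).card * (v * r) :=
        Nat.mul_le_mul_right _ (Nat.mul_le_mul_left _ hpre)
      _ ≤ r * (Fintype.card (Quo h).G * r) := hX2
      _ = _ := by ring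
  have hle : ∀ y : (Quo h).G, y ≠ 1 → (V (Quo h) y).card ≤ v := by
    intro y hy
    obtain ⟨a, rfl⟩ := pi_surj h y
    have := hmax a ((hR a).1 hy)
    rw [e5, e5, ← hv] at this
    exact Nat.le_of_mul_le_mul_right this hr0
  have hE : ∀ y : (Quo h).G, y ≠ 1 → y ∉ E → (V (Quo h) y).card = v := by
    intro y hy1 hy2
    by_contra hc
    exact hy2 (mem_filter.2 ⟨mem_univ _, hy1, hc⟩)
  have h1E : (1 : (Quo h).G) ∉ E := fun hc => (mem_filter.1 hc).2.1 rfl
  refine ⟨elem_of_quo h (few_elem hQ hle hE h1E hEG hEv), ?_⟩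
  rw [e1, e3, e5, ← hv, ← mul_assoc]
  exact (few_bound hQ hle hE h1E hEG hEv).imp (Nat.mul_le_mul_right _) (Nat.mul_le_mul_right _)

end

end Pool.Agent.H836.HM
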