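import Mathlib
import Pool.Agent.H836.HM.StepA

set_option autoImplicit false
set_option linter.unusedSectionVars false

/-!
# A positive proportion of exceptional elements: the case of large index
-/

namespace Pool.Agent.H836.HM

open Finset
open Pool.Agent.H315R3.ETC Pool.Agent.TH673.VG Pool.Agent.Q6.EV Pool.Agent.H836.HC

open Classical

noncomputable section

variable {S : QData} (h : IsQuat S) [Fintype S.G] {v : ℕ}
  (hle : ∀ a : S.G, a ≠ 1 → (V S a).card ≤ v) {E : Finset S.G}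
  (hE : ∀ a : S.G, a ≠ 1 → a ∉ E → (V S a).card = v)

include h hle in
theorem slots_bound {t : S.Q} (ht : t ≠ S.zero) {s : S.G} (hs : t ∈ Qs S s) :
    (X S t).card ≤ 1 + (V S s).card * (v - 1) := by
  have m1 : s ∈ X S t := mem_X.2 (mem_Qs.1 hs)
  refine (slots_le h m1).trans (Nat.add_le_add_left ?_ _)
  obtain ⟨z0, hz0⟩ := mem_Qs.1 hs
  have e1 : (C S t s).card = (V S s).card := card_C h hz0
  rw [← e1, ← smul_eq_mul, ← sum_const]
  refine sum_le_sum fun z hz => ?_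
  have m2 : z ∈ X S t := mem_X.2 ⟨s, by rw [h.qs2]; exact mem_C.1 hz⟩
  have hz1 : z ≠ 1 := by
    rintro rfl
    obtain ⟨y, hy⟩ := mem_X.1 m2
    exact ht (hy.symm.trans (q_one' h y))
  have := hle z hz1
  omega

include h hle in
theorem slots_bound_E (hw : ∀ c ∈ E, 2 * (V S c).card ≤ v) {t : S.Q} (ht : t ≠ S.zero)
    {c : S.G} (hc : c ∈ E) (hs : t ∈ Qs S c) :
    2 * (X S t).card ≤ 2 + v * (v - 1) := by
  have e1 := slots_bound h hle ht hs
  have e2 := hw c hc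
  have e3 : 2 * (V S c).card * (v - 1) ≤ v * (v - 1) := Nat.mul_le_mul_right _ e2
  have e4 : 2 * (V S c).card * (v - 1) = 2 * ((V S c).card * (v - 1)) := by ring
  omega

/-- the non-zero quaternions with slot `a` and a slot in `F` -/
def U (S : QData) [Fintype S.G] (F : Finset S.G) (a : S.G) : Finset S.Q :=
  ((Qs S a).erase S.zero).filter (fun t => ∃ c ∈ F, t ∈ Qs S c)

include h hle hE in
/-- the inequality at one element -/
theorem star (hw : ∀ c ∈ E, 2 * (V S c).card ≤ v) (hv : 2 ≤ v) {N : ℕ}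
    (hNv : N * v = Fintype.card S.G) {F : Finset S.G} (hF : F ⊆ E) {a : S.G} (ha1 : a ≠ 1)
    (ha2 : a ∉ E) :
    ((U S F a).card : ℤ) * (v * (v - 1)) ≤ (v - 1) * (v - 2) ^ 2 + 2 * v * E.card := by
  have hva : (V S a).card = v := hE a ha1 ha2
  have hNa : (Qs S a).card = N := by
    have := card_Qs h a
    rw [hva, ← hNv] at this
    exact Nat.eq_of_mul_eq_mul_right (by omega) this
  obtain ⟨B, hB⟩ : ∃ B : Finset S.G, B = univ.filter (fun x => x ≠ 1 ∧ x ≠ a) := ⟨_, rfl⟩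
  have hBc : B.card + 2 = N * v := by
    have := sum_two ha1.symm (fun _ : S.G => 1)
    rw [← hB, sum_const, sum_const, card_univ, smul_eq_mul, smul_eq_mul, mul_one, mul_one] at this
    omega
  have hsr := sum_r_le h hle a
  rw [sum_two ha1.symm, V_inter_one h, inter_self, hva, ← hB, ← hNv] at hsr
  have hsx := sum_slots h a
  rw [sum_two ha1.symm, Qs_inter_one h, inter_self, hNa, ← hB, ← hNv] at hsx
  -- the comparison on `B`
  have hkey : ∀ b ∈ B, (3 * (v : ℤ)) - v * ((V S a ∩ V S b).card : ℤ) ≤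
      2 * ((Qs S a ∩ Qs S b).card : ℤ) + if a * b ∈ E then 2 * (v : ℤ) else 0 := by
    intro b hb
    rw [hB, mem_filter] at hb
    have e2 := one_mem_cap h a b
    split_ifs with hab
    · have e3 : (v : ℤ) * 1 ≤ v * ((V S a ∩ V S b).card : ℤ) :=
        mul_le_mul_of_nonneg_left (by exact_mod_cast e2) (by positivity)
      have e4 : (0 : ℤ) ≤ ((Qs S a ∩ Qs S b).card : ℤ) := by positivity
      linarith
    · have e1 : (Qs S a ∩ Qs S b).card * (V S a ∩ V S b).card = v := by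
        rw [card_QQ h]
        exact hE _ (fun e => hb.2.2 (eq_of_mul h _ _ e).symm) hab
      have := key1 e1 e2
      linarith
  have hkey2 := sum_le_sum hkey
  rw [sum_sub_distrib, sum_const, nsmul_eq_mul, ← mul_sum, sum_add_distrib, ← mul_sum,
    ← sum_filter, sum_const, nsmul_eq_mul] at hkey2
  have hEB : (B.filter (fun b => a * b ∈ E)).card ≤ E.card := by
    refine card_le_card_of_injOn (fun b => a * b) (fun b hb => ?_)
      (fun x _ y _ e => mul_left_cancel e)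
    exact (mem_filter.1 hb).2
  -- the upper bound
  obtain ⟨T, hT⟩ : ∃ T, T = (Qs S a).erase S.zero := ⟨_, rfl⟩
  have hTc : T.card + 1 = N := by
    rw [hT, card_erase_of_mem (zero_mem_Qs h a), hNa]
    have : 0 < (Qs S a).card := card_pos.2 ⟨_, zero_mem_Qs h a⟩
    omega
  have hT2 : (T.filter (fun t => ∃ c ∈ F, t ∈ Qs S c)).card +
      (T.filter (fun t => ¬ ∃ c ∈ F, t ∈ Qs S c)).card = T.card := by
    rw [card_filter_add_card_filter_not]
  have hup : ∑ t ∈ T, 2 * (X S t).card ≤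
      (T.filter (fun t => ∃ c ∈ F, t ∈ Qs S c)).card * (2 + v * (v - 1)) +
      (T.filter (fun t => ¬ ∃ c ∈ F, t ∈ Qs S c)).card * (2 + 2 * (v * (v - 1))) := by
    rw [← sum_filter_add_sum_filter_not T (fun t => ∃ c ∈ F, t ∈ Qs S c)]
    refine Nat.add_le_add ?_ ?_
    · rw [← smul_eq_mul, ← sum_const]
      refine sum_le_sum fun t ht => ?_
      rw [mem_filter, hT, mem_erase] at ht
      obtain ⟨⟨t1, _⟩, c, hc, hc2⟩ := ht
      exact slots_bound_E h hle hw t1 (hF hc) hc2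
    · rw [← smul_eq_mul, ← sum_const]
      refine sum_le_sum fun t ht => ?_
      rw [mem_filter, hT, mem_erase] at ht
      have := slots_bound h hle ht.1.1 ht.1.2
      rw [hva] at this
      omega
  rw [← mul_sum, hT] at hup
  rw [hT] at hT2 hTc
  have hU : (U S F a).card =
    (((Qs S a).erase S.zero).filter (fun t => ∃ c ∈ F, t ∈ Qs S c)).card := rfl
  rw [← hU] at hup hT2
  -- integers
  obtain ⟨p, hp⟩ : ∃ p, p = (U S F a).card := ⟨_, rfl⟩
  obtain ⟨p', hp'⟩ : ∃ p', p' =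
    (((Qs S a).erase S.zero).filter (fun t => ¬ ∃ c ∈ F, t ∈ Qs S c)).card := ⟨_, rfl⟩
  obtain ⟨σ, hσ⟩ : ∃ σ, σ = ∑ t ∈ (Qs S a).erase S.zero, (X S t).card := ⟨_, rfl⟩
  obtain ⟨x, hx⟩ : ∃ x, x = ∑ b ∈ B, (Qs S a ∩ Qs S b).card := ⟨_, rfl⟩
  obtain ⟨r, hr1⟩ : ∃ r, r = ∑ b ∈ B, (V S a ∩ V S b).card := ⟨_, rfl⟩
  obtain ⟨e, he⟩ : ∃ e, e = (B.filter (fun b => a * b ∈ E)).card := ⟨_, rfl⟩
  have hxz : (x : ℤ) = ∑ b ∈ B, ((Qs S a ∩ Qs S b).card : ℤ) := by rw [hx]; push_cast; rfl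
  have hrz : (r : ℤ) = ∑ b ∈ B, ((V S a ∩ V S b).card : ℤ) := by rw [hr1]; push_cast; rfl
  rw [← hxz, ← hrz, ← he] at hkey2
  rw [← hp, ← hp', ← hσ] at hup
  rw [← hσ, ← hx] at hsx
  rw [← hr1] at hsr
  rw [← hp, ← hp'] at hT2
  rw [← he] at hEB
  rw [← hp]
  obtain ⟨v', rfl⟩ : ∃ v', v = v' + 1 := ⟨v - 1, by omega⟩
  rw [Nat.add_sub_cancel] at hup
  have hupz : 2 * (σ : ℤ) ≤ p * (2 + (v' + 1) * v') + p' * (2 + 2 * ((v' + 1) * v')) := by
    exact_mod_cast hup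
  have z1 : (σ : ℤ) + N * (v' + 1) = 1 + N + x := by exact_mod_cast hsx
  have z2 : ((v' : ℤ) + 1) + (v' + 1) + r + (v' + 1) ≤ N * (v' + 1) + (v' + 1) * (v' + 1) := by
    exact_mod_cast hsr
  have z4 : (p' : ℤ) = N - 1 - p := by omega
  have z5 : (B.card : ℤ) = N * (v' + 1) - 2 := by
    have : ((B.card + 2 : ℕ) : ℤ) = ((N * (v' + 1) : ℕ) : ℤ) := by rw [hBc]
    push_cast at this
    linarith
  have z8 : (e : ℤ) ≤ E.card := by exact_mod_cast hEB
  have zv : (0 : ℤ) ≤ v' := by positivity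
  rw [z5] at hkey2
  rw [z4] at hupz
  push_cast at hkey2 ⊢
  have z9 : ((v' : ℤ) + 1) * r ≤
      (v' + 1) * (N * (v' + 1) + (v' + 1) * (v' + 1) - 3 * (v' + 1)) :=
    mul_le_mul_of_nonneg_left (by linarith) (by linarith)
  have z11 : (e : ℤ) * (2 * (v' + 1)) ≤ E.card * (2 * (v' + 1)) :=
    mul_le_mul_of_nonneg_right z8 (by linarith)
  have z12 : (x : ℤ) = σ + N * (v' + 1) - 1 - N := by linarith
  rw [z12] at hkey2
  linarith

include h hle hE in
/-- the common quaternions with one exceptional element, in the mean -/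
theorem alpha (hw : ∀ c ∈ E, 2 * (V S c).card ≤ v) (hv : 5 ≤ v) (h1E : (1 : S.G) ∉ E)
    {c : S.G} (hc : c ∈ E) :
    ((v : ℤ) - 1) * (4 * Fintype.card S.G - 9 * (E.card + 1) - v * v) ≤
      4 * ∑ a ∈ (insert 1 E)ᶜ, (((Qs S a ∩ Qs S c).erase S.zero).card : ℤ) := by
  have hsr := sum_r_le h hle c
  have hwc := hw c hc
  have hI : (insert 1 E).card = E.card + 1 := card_insert_of_notMem h1E
  have hIc : ((insert 1 E)ᶜ).card + (E.card + 1) = Fintype.card S.G := by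
    rw [← hI]; exact card_compl_add_card _
  have hkey : ∀ a ∈ (insert 1 E)ᶜ, (3 * (v : ℤ)) ≤
      2 * (((Qs S a ∩ Qs S c).erase S.zero).card : ℤ) + 2 + v * ((V S c ∩ V S a).card : ℤ) +
      if c * a ∈ insert 1 E then 2 * (v : ℤ) else 0 := by
    intro a ha
    have e0 : ((Qs S a ∩ Qs S c).erase S.zero).card + 1 = (Qs S c ∩ Qs S a).card := by
      have m1 : S.zero ∈ Qs S a ∩ Qs S c := mem_inter.2 ⟨zero_mem_Qs h a, zero_mem_Qs h c⟩
      have m2 : 0 < (Qs S a ∩ Qs S c).card := card_pos.2 ⟨_, m1⟩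
      rw [card_erase_of_mem m1, inter_comm (Qs S c)]
      omega
    have e0' : ((((Qs S a ∩ Qs S c).erase S.zero).card : ℤ) + 1) =
      ((Qs S c ∩ Qs S a).card : ℤ) := by exact_mod_cast e0
    have e2 := one_mem_cap h c a
    split_ifs with hab
    · have e3 : (v : ℤ) * 1 ≤ v * ((V S c ∩ V S a).card : ℤ) :=
        mul_le_mul_of_nonneg_left (by exact_mod_cast e2) (by positivity)
      have e4 : (0 : ℤ) ≤ (((Qs S a ∩ Qs S c).erase S.zero).card : ℤ) := by positivity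
      linarith
    · rw [mem_insert] at hab
      push Not at hab
      have e1 : (Qs S c ∩ Qs S a).card * (V S c ∩ V S a).card = v := by
        rw [card_QQ h]
        exact hE _ hab.1 hab.2
      have := key1 e1 e2
      linarith
  have hkey2 := sum_le_sum hkey
  rw [sum_const, nsmul_eq_mul, sum_add_distrib, sum_add_distrib, sum_add_distrib, ← mul_sum,
    ← mul_sum, ← sum_filter, sum_const, sum_const, nsmul_eq_mul, nsmul_eq_mul] at hkey2
  have hEB : (((insert 1 E)ᶜ).filter (fun b => c * b ∈ insert 1 E)).card ≤ E.card + 1 := by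
    rw [← hI]
    refine card_le_card_of_injOn (fun b => c * b) (fun b hb => ?_)
      (fun x _ y _ e => mul_left_cancel e)
    exact (mem_filter.1 hb).2
  have hsplit : ∑ a ∈ insert 1 E, (V S c ∩ V S a).card +
      ∑ a ∈ (insert 1 E)ᶜ, (V S c ∩ V S a).card = ∑ a, (V S c ∩ V S a).card :=
    sum_add_sum_compl _ _
  have hge : E.card + 1 ≤ ∑ a ∈ insert 1 E, (V S c ∩ V S a).card := by
    rw [← hI, card_eq_sum_ones]
    exact sum_le_sum fun a _ => one_mem_cap h c a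
  obtain ⟨e, he⟩ : ∃ e, e = E.card := ⟨_, rfl⟩
  obtain ⟨G, hG⟩ : ∃ G, G = Fintype.card S.G := ⟨_, rfl⟩
  obtain ⟨I, hI'⟩ : ∃ I, I = ((insert 1 E)ᶜ).card := ⟨_, rfl⟩
  obtain ⟨e', he'⟩ : ∃ e', e' =
    (((insert 1 E)ᶜ).filter (fun b => c * b ∈ insert 1 E)).card := ⟨_, rfl⟩
  obtain ⟨w, hw'⟩ : ∃ w, w = (V S c).card := ⟨_, rfl⟩
  obtain ⟨r, hr⟩ : ∃ r, r = ∑ a ∈ (insert 1 E)ᶜ, (V S c ∩ V S a).card := ⟨_, rfl⟩
  obtain ⟨y, hy⟩ : ∃ y : ℤ, y =
    ∑ a ∈ (insert 1 E)ᶜ, (((Qs S a ∩ Qs S c).erase S.zero).card : ℤ) := ⟨_, rfl⟩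
  have hrz : (r : ℤ) = ∑ a ∈ (insert 1 E)ᶜ, ((V S c ∩ V S a).card : ℤ) := by
    rw [hr]; push_cast; rfl
  rw [← hrz, ← hy, ← hI', ← he'] at hkey2
  rw [← hr] at hsplit
  rw [← hy, ← hG, ← he]
  rw [← he'] at hEB
  rw [← he] at hEB hge hIc
  rw [← hI'] at hIc
  rw [← hG] at hIc hsr
  rw [← hw'] at hsr hwc
  have z1 : (I : ℤ) = G - (e + 1) := by omega
  have z2 : 2 * (r : ℤ) ≤ 2 * G + v * v - 2 * v - 2 * (e + 1) := by
    have n1 : (2 * w) * v ≤ v * v := Nat.mul_le_mul_right _ hwc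
    have n3 : (2 * w) * v = 2 * (w * v) := by ring
    have n4 : 2 * r + 2 * v + 2 * (e + 1) ≤ 2 * G + v * v := by omega
    have n5 : ((2 * r + 2 * v + 2 * (e + 1) : ℕ) : ℤ) ≤ ((2 * G + v * v : ℕ) : ℤ) := by
      exact_mod_cast n4
    push_cast at n5
    linarith
  have z3 : (e' : ℤ) ≤ e + 1 := by exact_mod_cast hEB
  have z4 : (5 : ℤ) ≤ v := by exact_mod_cast hv
  have z5 : (v : ℤ) * (2 * r) ≤ v * (2 * G + v * v - 2 * v - 2 * (e + 1)) :=
    mul_le_mul_of_nonneg_left z2 (by linarith)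
  have z6 : (e' : ℤ) * (2 * v) ≤ (e + 1) * (2 * v) :=
    mul_le_mul_of_nonneg_right z3 (by linarith)
  have z7 : (0 : ℤ) ≤ (e + 1) * (v - 5) := mul_nonneg (by positivity) (by linarith)
  have z8 : (0 : ℤ) ≤ v * v := mul_self_nonneg _
  rw [z1] at hkey2
  linarith

include h hle in
/-- the common quaternions with two exceptional elements, in the mean -/
theorem beta (hw : ∀ c ∈ E, 2 * (V S c).card ≤ v) (hv : 2 ≤ v) {c d : S.G} (hc : c ∈ E)
    (hcd : c ≠ d) (A : Finset S.G) :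
    2 * ∑ a ∈ A, ((Qs S a ∩ Qs S c).erase S.zero ∩ (Qs S a ∩ Qs S d).erase S.zero).card ≤
      (v - 1) * (v * v) := by
  obtain ⟨Y, hY⟩ : ∃ Y, Y = (Qs S c ∩ Qs S d).erase S.zero := ⟨_, rfl⟩
  have hYc : Y.card ≤ v - 1 := by
    have m1 : S.zero ∈ Qs S c ∩ Qs S d := mem_inter.2 ⟨zero_mem_Qs h c, zero_mem_Qs h d⟩
    rw [hY, card_erase_of_mem m1]
    have e1 := card_QQ h c d
    have e2 := one_mem_cap h c d
    have e3 := hle (c * d) (fun e => hcd (eq_of_mul h _ _ e))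
    have e4 : (Qs S c ∩ Qs S d).card * 1 ≤ (Qs S c ∩ Qs S d).card * (V S c ∩ V S d).card :=
      Nat.mul_le_mul_left _ e2
    omega
  have h1 : ∑ a ∈ A, ((Qs S a ∩ Qs S c).erase S.zero ∩ (Qs S a ∩ Qs S d).erase S.zero).card ≤
      ∑ a : S.G, (Y.filter (fun t => a ∈ X S t)).card := by
    refine (sum_le_sum fun a _ => ?_).trans
      (sum_le_sum_of_subset_of_nonneg (subset_univ A) fun _ _ _ => Nat.zero_le _)
    refine card_le_card fun t ht => ?_
    rw [mem_inter, mem_erase, mem_erase, mem_inter, mem_inter] at ht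
    rw [mem_filter, hY, mem_erase, mem_inter]
    exact ⟨⟨ht.1.1, ht.1.2.2, ht.2.2.2⟩, mem_X.2 (mem_Qs.1 ht.1.2.1)⟩
  have h2 : ∑ a : S.G, (Y.filter (fun t => a ∈ X S t)).card = ∑ t ∈ Y, (X S t).card := by
    rw [← double Y univ (fun t b => b ∈ X S t)]
    refine sum_congr rfl fun t _ => ?_
    congr 1
    ext b
    simp
  have h3 : ∑ t ∈ Y, 2 * (X S t).card ≤ Y.card * (2 + v * (v - 1)) := by
    rw [← smul_eq_mul, ← sum_const]
    refine sum_le_sum fun t ht => ?_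
    rw [hY, mem_erase, mem_inter] at ht
    exact slots_bound_E h hle hw ht.1 hc ht.2.1
  rw [← mul_sum] at h3
  have h4 : 2 + v * (v - 1) ≤ v * v := by
    obtain ⟨u, rfl⟩ : ∃ u, v = u + 2 := ⟨v - 2, by omega⟩
    have : u + 2 - 1 = u + 1 := by omega
    rw [this]
    nlinarith
  calc _ ≤ 2 * ∑ t ∈ Y, (X S t).card := by omega
    _ ≤ Y.card * (2 + v * (v - 1)) := h3
    _ ≤ (v - 1) * (v * v) := Nat.mul_le_mul hYc h4

include h hle hE in
/-- many quaternions with a slot in `F` -/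
theorem many (hw : ∀ c ∈ E, 2 * (V S c).card ≤ v) (hv : 5 ≤ v) (h1E : (1 : S.G) ∉ E)
    (F : Finset S.G) : F ⊆ E →
    (F.card : ℤ) * (((v : ℤ) - 1) * (4 * Fintype.card S.G - 9 * (E.card + 1) - v * v)) ≤
      4 * ∑ a ∈ (insert 1 E)ᶜ, ((U S F a).card : ℤ) +
      F.card * (F.card - 1) * ((v - 1) * (v * v)) := by
  refine Finset.induction_on F ?_ ?_
  · intro _
    simp [U]
  · intro c F hcF ih hF
    have hc : c ∈ E := hF (mem_insert_self _ _)
    have hF' : F ⊆ E := (subset_insert _ _).trans hF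
    have ih' := ih hF'
    have hal := alpha h hle hE hw hv h1E hc
    have hstep : ∀ a ∈ (insert 1 E)ᶜ, ((U S F a).card : ℤ) +
        (((Qs S a ∩ Qs S c).erase S.zero).card : ℤ) ≤ ((U S (insert c F) a).card : ℤ) +
        ∑ d ∈ F, (((Qs S a ∩ Qs S c).erase S.zero ∩
          (Qs S a ∩ Qs S d).erase S.zero).card : ℤ) := by
      intro a _
      have e1 : U S F a ∪ (Qs S a ∩ Qs S c).erase S.zero ⊆ U S (insert c F) a := by
        intro t ht
        rw [mem_union, U, mem_filter, mem_erase, mem_erase, mem_inter] at ht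
        rw [U, mem_filter, mem_erase]
        rcases ht with ⟨⟨t1, t2⟩, d, hd, t3⟩ | ⟨t1, t2, t3⟩
        · exact ⟨⟨t1, t2⟩, d, mem_insert_of_mem hd, t3⟩
        · exact ⟨⟨t1, t2⟩, c, mem_insert_self _ _, t3⟩
      have e2 : U S F a ∩ (Qs S a ∩ Qs S c).erase S.zero ⊆
          F.biUnion fun d => (Qs S a ∩ Qs S c).erase S.zero ∩
            (Qs S a ∩ Qs S d).erase S.zero := by
        intro t ht
        rw [mem_inter, U, mem_filter, mem_erase] at ht
        obtain ⟨⟨⟨t1, t2⟩, d, hd, t3⟩, t4⟩ := ht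
        exact mem_biUnion.2 ⟨d, hd, mem_inter.2 ⟨t4, mem_erase.2 ⟨t1, mem_inter.2 ⟨t2, t3⟩⟩⟩⟩
      have e3 := card_union_add_card_inter (U S F a) ((Qs S a ∩ Qs S c).erase S.zero)
      have e4 := card_le_card e1
      have e5 := (card_le_card e2).trans card_biUnion_le
      have e6 : (U S F a).card + ((Qs S a ∩ Qs S c).erase S.zero).card ≤
          (U S (insert c F) a).card + ∑ d ∈ F, ((Qs S a ∩ Qs S c).erase S.zero ∩
            (Qs S a ∩ Qs S d).erase S.zero).card := by omega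
      exact_mod_cast e6
    have hstep2 := sum_le_sum hstep
    rw [sum_add_distrib, sum_add_distrib, sum_comm (s := (insert 1 E)ᶜ) (t := F)] at hstep2
    have hbe : 2 * ∑ d ∈ F, ∑ a ∈ (insert 1 E)ᶜ, (((Qs S a ∩ Qs S c).erase S.zero ∩
        (Qs S a ∩ Qs S d).erase S.zero).card : ℤ) ≤ F.card * (((v : ℤ) - 1) * (v * v)) := by
      rw [mul_sum, ← nsmul_eq_mul, ← sum_const]
      refine sum_le_sum fun d hd => ?_
      have := beta h hle hw (by omega) hc (d := d) (fun e => hcF (e ▸ hd)) ((insert 1 E)ᶜ)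
      obtain ⟨u, rfl⟩ : ∃ u, v = u + 1 := ⟨v - 1, by omega⟩
      rw [Nat.add_sub_cancel] at this
      push_cast
      have e1 : ((u : ℤ) + 1 - 1) = u := by ring
      rw [e1]
      exact_mod_cast this
    rw [card_insert_of_notMem hcF]
    push_cast
    obtain ⟨s0, hs0⟩ : ∃ s0 : ℤ, s0 = ∑ a ∈ (insert 1 E)ᶜ, ((U S F a).card : ℤ) := ⟨_, rfl⟩
    obtain ⟨s1, hs1⟩ : ∃ s1 : ℤ, s1 = ∑ a ∈ (insert 1 E)ᶜ, ((U S (insert c F) a).card : ℤ) :=
      ⟨_, rfl⟩
    obtain ⟨s2, hs2⟩ : ∃ s2 : ℤ, s2 = ∑ a ∈ (insert 1 E)ᶜ,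
      (((Qs S a ∩ Qs S c).erase S.zero).card : ℤ) := ⟨_, rfl⟩
    obtain ⟨s3, hs3⟩ : ∃ s3 : ℤ, s3 = ∑ d ∈ F, ∑ a ∈ (insert 1 E)ᶜ,
      (((Qs S a ∩ Qs S c).erase S.zero ∩ (Qs S a ∩ Qs S d).erase S.zero).card : ℤ) :=
      ⟨_, rfl⟩
    rw [← hs0, ← hs1, ← hs2, ← hs3] at hstep2
    rw [← hs0] at ih'
    rw [← hs2] at hal
    rw [← hs3] at hbe
    rw [← hs1]
    obtain ⟨K, hK⟩ : ∃ K : ℤ, K = ((v : ℤ) - 1) * (4 * Fintype.card S.G -
      9 * (E.card + 1) - v * v) := ⟨_, rfl⟩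
    obtain ⟨L, hL⟩ : ∃ L : ℤ, L = ((v : ℤ) - 1) * (v * v) := ⟨_, rfl⟩
    rw [← hK, ← hL] at ih'
    rw [← hK] at hal
    rw [← hL] at hbe
    rw [← hK, ← hL]
    linarith

end

end Pool.Agent.H836.HM
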