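import Mathlib
import Pool.Agent.H836.HM.PropA

set_option autoImplicit false
set_option linter.unusedSectionVars false

/-!
# A positive proportion of exceptional elements: index equal to the order
-/

namespace Pool.Agent.H836.HM

open Finset
open Pool.Agent.H315R3.ETC Pool.Agent.TH673.VG Pool.Agent.Q6.EV Pool.Agent.H836.HC

open Classical

noncomputable section

variable {S : QData} (h : IsQuat S) [Fintype S.G] {v : ℕ}
  (hle : ∀ a : S.G, a ≠ 1 → (V S a).card ≤ v) {E : Finset S.G}
  (hE : ∀ a : S.G, a ≠ 1 → a ∉ E → (V S a).card = v)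

/-- the elements outside `E` all of whose quaternions have the slot `c` -/
def Sub (S : QData) [Fintype S.G] (E : Finset S.G) (c : S.G) : Finset S.G :=
  univ.filter (fun a => a ∉ insert 1 E ∧ Qs S a ⊆ Qs S c)

theorem mem_Sub {c a : S.G} : a ∈ Sub S E c ↔ (a ≠ 1 ∧ a ∉ E) ∧ Qs S a ⊆ Qs S c := by
  rw [Sub, mem_filter, mem_insert]
  push Not
  simp

include h hle hE in
/-- at least about half of the elements are in `Sub S E c` -/
theorem half (hw : ∀ c ∈ E, 2 * (V S c).card ≤ v) (hv : 1 ≤ v)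
    (hG : v * v = Fintype.card S.G) {c : S.G} (hc : c ∈ E) :
    Fintype.card S.G + 2 * v ≤ 2 * (Sub S E c).card + 4 * (E.card + 1) := by
  have hsr := sum_r_le h hle c
  have hwc := hw c hc
  have hkey : ∀ b ∈ (univ : Finset S.G), 2 ≤ (V S c ∩ V S b).card +
      ((if b ∈ Sub S E c then 1 else 0) + ((if b ∈ insert 1 E then 1 else 0) +
      if c * b ∈ insert 1 E then 1 else 0)) := by
    intro b _
    have e2 := one_mem_cap h c b
    by_cases c1 : b ∈ insert 1 E
    · rw [if_pos c1]; omega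
    by_cases c2 : c * b ∈ insert 1 E
    · rw [if_pos c2]; omega
    by_cases c3 : b ∈ Sub S E c
    · rw [if_pos c3]; omega
    by_contra hcon
    push Not at hcon
    have e3 : (V S c ∩ V S b).card = 1 := by omega
    rw [mem_insert] at c1 c2
    push Not at c1 c2
    have e4 : (Qs S c ∩ Qs S b).card = v := by
      have := card_QQ h c b
      rw [e3, mul_one, hE _ c2.1 c2.2] at this
      exact this
    have e5 : (Qs S b).card = v := by
      have := card_Qs h b
      rw [hE b c1.1 c1.2, ← hG] at this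
      exact Nat.eq_of_mul_eq_mul_right (by omega) this
    have e6 : Qs S c ∩ Qs S b = Qs S b := eq_of_subset_of_card_le inter_subset_right (by omega)
    exact c3 (mem_Sub.2 ⟨c1, fun t ht => by
      rw [← e6] at ht; exact (mem_inter.1 ht).1⟩)
  have hkey2 := sum_le_sum hkey
  rw [sum_const, smul_eq_mul, sum_add_distrib, sum_add_distrib, sum_add_distrib,
    ← card_filter, ← card_filter, ← card_filter, card_univ] at hkey2
  have hE0 : (univ.filter (fun b : S.G => b ∈ Sub S E c)).card ≤ (Sub S E c).card :=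
    card_le_card fun b hb => (mem_filter.1 hb).2
  have hE1 : (univ.filter (fun b : S.G => b ∈ insert 1 E)).card ≤ E.card + 1 :=
    (card_le_card fun b hb => (mem_filter.1 hb).2).trans (card_insert_le _ _)
  have hE2 : (univ.filter (fun b : S.G => c * b ∈ insert 1 E)).card ≤ E.card + 1 := by
    refine (card_le_card_of_injOn (t := insert 1 E) (fun b => c * b) (fun b hb => ?_)
      (fun x _ y _ e => mul_left_cancel e)).trans (card_insert_le _ _)
    exact (mem_filter.1 hb).2
  have n1 : (2 * (V S c).card) * v ≤ v * v := Nat.mul_le_mul_right _ hwc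
  have n2 : (2 * (V S c).card) * v = 2 * ((V S c).card * v) := by ring
  omega

include h hle hE in
/-- an element of `Sub S E c` has few `b` with `V(a) ∩ V(b) = 1` -/
theorem few_one (hw : ∀ c ∈ E, 2 * (V S c).card ≤ v) (hv : 8 ≤ v)
    (hG : v * v = Fintype.card S.G) {c : S.G} (hc : c ∈ E) {a : S.G} (ha : a ∈ Sub S E c) :
    (univ.filter (fun b : S.G => b ≠ 1 ∧ b ≠ a ∧ a * b ∉ E ∧ (V S a ∩ V S b).card = 1)).card ≤
      2 * E.card := by
  obtain ⟨⟨ha1, ha2⟩, ha3⟩ := mem_Sub.1 ha
  have hva : (V S a).card = v := hE a ha1 ha2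
  have hNa : (Qs S a).card = v := by
    have := card_Qs h a
    rw [hva, ← hG] at this
    exact Nat.eq_of_mul_eq_mul_right (by omega) this
  obtain ⟨B, hB⟩ : ∃ B : Finset S.G, B = univ.filter (fun x => x ≠ 1 ∧ x ≠ a) := ⟨_, rfl⟩
  have hBc : B.card + 2 = v * v := by
    have := sum_two ha1.symm (fun _ : S.G => 1)
    rw [← hB, sum_const, sum_const, card_univ, smul_eq_mul, smul_eq_mul, mul_one, mul_one] at this
    omega
  have hsr := sum_r_le h hle a
  rw [sum_two ha1.symm, V_inter_one h, inter_self, hva, ← hB, ← hG] at hsr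
  have hsx := sum_slots h a
  rw [sum_two ha1.symm, Qs_inter_one h, inter_self, hNa, ← hB, ← hG] at hsx
  have hkey : ∀ b ∈ B, 5 * v + (if a * b ∉ E ∧ (V S a ∩ V S b).card = 1 then 2 * v else 0) ≤
      6 * (Qs S a ∩ Qs S b).card + v * (V S a ∩ V S b).card +
      if a * b ∈ E then 4 * v else 0 := by
    intro b hb
    rw [hB, mem_filter] at hb
    have e2 := one_mem_cap h a b
    by_cases hab : a * b ∈ E
    · rw [if_neg (fun e => e.1 hab), if_pos hab]
      have e3 : v * 1 ≤ v * (V S a ∩ V S b).card := Nat.mul_le_mul_left _ e2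
      omega
    · have e1 : (Qs S a ∩ Qs S b).card * (V S a ∩ V S b).card = v := by
        rw [card_QQ h]
        exact hE _ (fun e => hb.2.2 (eq_of_mul h _ _ e).symm) hab
      obtain ⟨x, hx⟩ : ∃ x, x = (Qs S a ∩ Qs S b).card := ⟨_, rfl⟩
      obtain ⟨r, hr⟩ : ∃ r, r = (V S a ∩ V S b).card := ⟨_, rfl⟩
      rw [← hx, ← hr] at e1 ⊢
      rw [← hr] at e2
      rw [if_neg hab, add_zero]
      by_cases hr1 : r = 1
      · rw [if_pos ⟨hab, hr1⟩]
        rw [hr1, mul_one] at e1
        rw [hr1, e1]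
        omega
      · rw [if_neg (fun e => hr1 e.2), add_zero]
        obtain ⟨s, rfl⟩ : ∃ s, r = s + 2 := ⟨r - 2, by omega⟩
        rw [← e1]
        rcases Nat.eq_zero_or_pos s with e | e
        · subst e
          nlinarith
        · obtain ⟨s', rfl⟩ : ∃ s', s = s' + 1 := ⟨s - 1, by omega⟩
          nlinarith [Nat.zero_le (x * (s' * (s' + 1)))]
  have hkey2 := sum_le_sum hkey
  rw [sum_add_distrib, sum_const, smul_eq_mul, sum_add_distrib, sum_add_distrib, ← mul_sum,
    ← mul_sum, ← sum_filter, ← sum_filter, sum_const, sum_const, smul_eq_mul,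
    smul_eq_mul] at hkey2
  have hEB : (B.filter (fun b => a * b ∈ E)).card ≤ E.card := by
    refine card_le_card_of_injOn (fun b => a * b) (fun b hb => ?_)
      (fun x _ y _ e => mul_left_cancel e)
    exact (mem_filter.1 hb).2
  have hP : univ.filter (fun b : S.G => b ≠ 1 ∧ b ≠ a ∧ a * b ∉ E ∧
      (V S a ∩ V S b).card = 1) = B.filter (fun b => a * b ∉ E ∧ (V S a ∩ V S b).card = 1) := by
    rw [hB, filter_filter]
    refine filter_congr fun b _ => ?_
    tauto
  rw [hP]
  have hT : ((Qs S a).erase S.zero).card + 1 = v := by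
    rw [card_erase_of_mem (zero_mem_Qs h a), hNa]
    omega
  have hup : ∑ t ∈ (Qs S a).erase S.zero, 2 * (X S t).card ≤
      ((Qs S a).erase S.zero).card * (2 + v * (v - 1)) := by
    rw [← smul_eq_mul, ← sum_const]
    refine sum_le_sum fun t ht => ?_
    rw [mem_erase] at ht
    exact slots_bound_E h hle hw ht.1 hc (ha3 ht.2)
  rw [← mul_sum] at hup
  obtain ⟨σ, hσ⟩ : ∃ σ, σ = ∑ t ∈ (Qs S a).erase S.zero, (X S t).card := ⟨_, rfl⟩
  obtain ⟨τ, hτ⟩ : ∃ τ, τ = ((Qs S a).erase S.zero).card := ⟨_, rfl⟩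
  obtain ⟨x, hx⟩ : ∃ x, x = ∑ b ∈ B, (Qs S a ∩ Qs S b).card := ⟨_, rfl⟩
  obtain ⟨r, hr1⟩ : ∃ r, r = ∑ b ∈ B, (V S a ∩ V S b).card := ⟨_, rfl⟩
  obtain ⟨e', he'⟩ : ∃ e', e' = (B.filter (fun b => a * b ∈ E)).card := ⟨_, rfl⟩
  obtain ⟨p, hp⟩ : ∃ p, p = (B.filter (fun b => a * b ∉ E ∧ (V S a ∩ V S b).card = 1)).card :=
    ⟨_, rfl⟩
  obtain ⟨e, he⟩ : ∃ e, e = E.card := ⟨_, rfl⟩
  rw [← hx, ← hr1, ← he', ← hp] at hkey2
  rw [← hσ, ← hτ] at hup
  rw [← hτ] at hT
  rw [← hσ, ← hx] at hsx
  rw [← hr1] at hsr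
  rw [← he', ← he] at hEB
  rw [← hp, ← he]
  obtain ⟨v', rfl⟩ : ∃ v', v = v' + 1 := ⟨v - 1, by omega⟩
  rw [Nat.add_sub_cancel] at hup
  have hτ' : τ = v' := by omega
  rw [hτ'] at hup
  have z0 : 2 * (σ : ℤ) ≤ v' * (2 + (v' + 1) * v') := by exact_mod_cast hup
  have z1 : (σ : ℤ) + (v' + 1) * (v' + 1) = 1 + (v' + 1) + x := by exact_mod_cast hsx
  have z2 : ((v' : ℤ) + 1) + (v' + 1) + r + (v' + 1) ≤
      (v' + 1) * (v' + 1) + (v' + 1) * (v' + 1) := by exact_mod_cast hsr
  have z5 : (B.card : ℤ) = (v' + 1) * (v' + 1) - 2 := by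
    have : ((B.card + 2 : ℕ) : ℤ) = (((v' + 1) * (v' + 1) : ℕ) : ℤ) := by rw [hBc]
    push_cast at this
    linarith
  have z6 : (B.card : ℤ) * (5 * (v' + 1)) + p * (2 * (v' + 1)) ≤
      6 * x + (v' + 1) * r + e' * (4 * (v' + 1)) := by exact_mod_cast hkey2
  have z7 : (e' : ℤ) ≤ e := by exact_mod_cast hEB
  have z8 : (7 : ℤ) ≤ v' := by exact_mod_cast (by omega : 7 ≤ v')
  rw [z5] at z6
  have z9 : ((v' : ℤ) + 1) * r ≤
      (v' + 1) * ((v' + 1) * (v' + 1) + (v' + 1) * (v' + 1) - 3 * (v' + 1)) :=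
    mul_le_mul_of_nonneg_left (by linarith) (by linarith)
  have z10 : (e' : ℤ) * (4 * (v' + 1)) ≤ e * (4 * (v' + 1)) :=
    mul_le_mul_of_nonneg_right z7 (by linarith)
  have z12 : (x : ℤ) = σ + (v' + 1) * (v' + 1) - 1 - (v' + 1) := by linarith
  have z13 : (v' + 1) * (2 * (p : ℤ)) ≤ (v' + 1) * (4 * e) := by
    have y1 : 0 ≤ (v' : ℤ) * (v' - 7) := mul_nonneg (by linarith) (by linarith)
    nlinarith
  have z14 := le_of_mul_le_mul_left z13 (by linarith)
  have z15 : (p : ℤ) ≤ 2 * e := by linarith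
  exact_mod_cast z15

include h hle hE in
/-- the case where the index is equal to the order -/
theorem midA (hw : ∀ c ∈ E, 2 * (V S c).card ≤ v) (hv : 8 ≤ v)
    (hG : v * v = Fintype.card S.G) (hEG : 32 * E.card ≤ Fintype.card S.G) : E.card ≤ v := by
  by_contra hcon
  push Not at hcon
  obtain ⟨F, hF, hF3⟩ := exists_subset_card_eq (show 3 ≤ E.card by omega)
  obtain ⟨c1, c2, c3, h12, h13, h23, rfl⟩ := card_eq_three.1 hF3
  have m1 : c1 ∈ E := hF (by simp)
  have m2 : c2 ∈ E := hF (by simp)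
  have m3 : c3 ∈ E := hF (by simp)
  have a1 := half h hle hE hw (by omega) hG m1
  have a2 := half h hle hE hw (by omega) hG m2
  have a3 := half h hle hE hw (by omega) hG m3
  -- two of them have a large intersection
  have hsum : (Sub S E c1).card + (Sub S E c2).card + (Sub S E c3).card ≤
      Fintype.card S.G + ((Sub S E c1 ∩ Sub S E c2).card + (Sub S E c1 ∩ Sub S E c3).card +
      (Sub S E c2 ∩ Sub S E c3).card) := by
    have u1 := card_union_add_card_inter (Sub S E c1) (Sub S E c2)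
    have u2 := card_union_add_card_inter (Sub S E c1 ∪ Sub S E c2) (Sub S E c3)
    have u3 : ((Sub S E c1 ∪ Sub S E c2) ∩ Sub S E c3).card ≤
        (Sub S E c1 ∩ Sub S E c3).card + (Sub S E c2 ∩ Sub S E c3).card := by
      rw [union_inter_distrib_right]
      exact card_union_le _ _
    have u4 : (Sub S E c1 ∪ Sub S E c2 ∪ Sub S E c3).card ≤ Fintype.card S.G := card_le_univ _
    omega
  -- such an intersection is small
  have hsmall : ∀ {c d : S.G}, c ∈ E → d ∈ E → c ≠ d →
      (Sub S E c ∩ Sub S E d).card ≤ 3 * E.card + 1 := by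
    intro c d hc hd hcd
    rcases (Sub S E c ∩ Sub S E d).eq_empty_or_nonempty with e0 | ⟨a, ha⟩
    · rw [e0, card_empty]; omega
    rw [mem_inter] at ha
    obtain ⟨hac, had⟩ := ha
    have hq : ∀ b ∈ Sub S E c ∩ Sub S E d, Qs S b = Qs S c ∩ Qs S d := by
      intro b hb
      rw [mem_inter, mem_Sub, mem_Sub] at hb
      obtain ⟨⟨⟨b1, b2⟩, b3⟩, _, b4⟩ := hb
      refine eq_of_subset_of_card_le (subset_inter b3 b4) ?_
      have e1 := card_QQ h c d
      have e2 := one_mem_cap h c d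
      have e3 := hle (c * d) (fun e => hcd (eq_of_mul h _ _ e))
      have e4 : (Qs S c ∩ Qs S d).card * 1 ≤ (Qs S c ∩ Qs S d).card * (V S c ∩ V S d).card :=
        Nat.mul_le_mul_left _ e2
      have e5 : (Qs S b).card = v := by
        have := card_Qs h b
        rw [hE b b1 b2, ← hG] at this
        exact Nat.eq_of_mul_eq_mul_right (by omega) this
      omega
    have h1 := few_one h hle hE hw hv hG hc hac
    have hsub : Sub S E c ∩ Sub S E d ⊆ insert a ((univ.filter (fun b : S.G => b ≠ 1 ∧ b ≠ a ∧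
        a * b ∉ E ∧ (V S a ∩ V S b).card = 1)) ∪ univ.filter (fun b : S.G => a * b ∈ E)) := by
      intro b hb
      rw [mem_insert, mem_union, mem_filter, mem_filter]
      by_cases b1 : b = a
      · exact Or.inl b1
      by_cases b2 : a * b ∈ E
      · exact Or.inr (Or.inr ⟨mem_univ _, b2⟩)
      right; left
      have hb' := hb
      rw [mem_inter, mem_Sub] at hb'
      refine ⟨mem_univ _, hb'.1.1.1, b1, b2, ?_⟩
      have e1 := card_QQ h a b
      rw [hq a (mem_inter.2 ⟨hac, had⟩), hq b hb, inter_self, ← hq b hb,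
        hE (a * b) (fun e => b1 (eq_of_mul h _ _ e).symm) b2] at e1
      have e5 : (Qs S b).card = v := by
        have := card_Qs h b
        rw [hE b hb'.1.1.1 hb'.1.1.2, ← hG] at this
        exact Nat.eq_of_mul_eq_mul_right (by omega) this
      rw [e5] at e1
      have : v * (V S a ∩ V S b).card = v * 1 := by rw [e1, mul_one]
      exact Nat.eq_of_mul_eq_mul_left (by omega) this
    have h2 : (univ.filter (fun b : S.G => a * b ∈ E)).card ≤ E.card := by
      refine card_le_card_of_injOn (fun b => a * b) (fun b hb => ?_)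
        (fun x _ y _ e => mul_left_cancel e)
      exact (mem_filter.1 hb).2
    have h3 := (card_le_card hsub).trans (card_insert_le _ _)
    have h4 := card_union_le (univ.filter (fun b : S.G => b ≠ 1 ∧ b ≠ a ∧
        a * b ∉ E ∧ (V S a ∩ V S b).card = 1)) (univ.filter (fun b : S.G => a * b ∈ E))
    omega
  have s1 := hsmall m1 m2 h12
  have s2 := hsmall m1 m3 h13
  have s3 := hsmall m2 m3 h23
  omega

end

end Pool.Agent.H836.HM
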