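import Mathlib
import Pool.Agent.H836.HM.MidA

set_option autoImplicit false
set_option linter.unusedSectionVars false

/-!
# At most a sixteenth part of exceptional elements: index equal to the order
-/

namespace Pool.Agent.H836.HM

open Finset
open Pool.Agent.H315R3.ETC Pool.Agent.TH673.VG Pool.Agent.Q6.EV Pool.Agent.H836.HC

open Classical

noncomputable section

variable {S : QData} (h : IsQuat S) [Fintype S.G] {v : ℕ}
  (hle : ∀ a : S.G, a ≠ 1 → (V S a).card ≤ v) {E : Finset S.G}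
  (hE : ∀ a : S.G, a ≠ 1 → a ∉ E → (V S a).card = v)

include h hle hE in
/-- the exceptional value groups have half the maximal order -/
theorem not_quarter (hw : ∀ c ∈ E, 2 * (V S c).card ≤ v) (hv : 8 ≤ v)
    (hG : v * v = Fintype.card S.G) (hEG : 16 * E.card ≤ Fintype.card S.G) {c : S.G}
    (hc : c ∈ E) : v < 4 * (V S c).card := by
  by_contra hcon
  push Not at hcon
  have hh := half h hle hE hw (by omega) hG hc
  obtain ⟨a, ha⟩ : (Sub S E c).Nonempty := by
    rw [← card_pos]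
    have : 64 ≤ Fintype.card S.G := by
      rw [← hG]
      calc 64 = 8 * 8 := by norm_num
        _ ≤ v * v := Nat.mul_le_mul hv hv
    omega
  obtain ⟨⟨ha1, ha2⟩, ha3⟩ := mem_Sub.1 ha
  have hva : (V S a).card = v := hE a ha1 ha2
  have hNa : (Qs S a).card = v := by
    have := card_Qs h a
    rw [hva, ← hG] at this
    exact Nat.eq_of_mul_eq_mul_right (by omega) this
  obtain ⟨B, hB⟩ : ∃ B : Finset S.G, B = univ.filter (fun x => x ≠ 1 ∧ x ≠ a) := ⟨_, rfl⟩
  have hBc : B.card + 2 = v * v := by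
    have := sum_two ha1.symm (fun _ : S.G => 1)
    rw [← hB, sum_const, sum_const, card_univ, smul_eq_mul, smul_eq_mul, mul_one, mul_one] at this
    omega
  have hsr := sum_r_le h hle a
  rw [sum_two ha1.symm, V_inter_one h, inter_self, hva, ← hB, ← hG] at hsr
  have hsx := sum_slots h a
  rw [sum_two ha1.symm, Qs_inter_one h, inter_self, hNa, ← hB, ← hG] at hsx
  have hkey : ∀ b ∈ B, 5 * v ≤
      6 * (Qs S a ∩ Qs S b).card + v * (V S a ∩ V S b).card +
      if a * b ∈ E then 4 * v else 0 := by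
    intro b hb
    rw [hB, mem_filter] at hb
    have e2 := one_mem_cap h a b
    by_cases hab : a * b ∈ E
    · rw [if_pos hab]
      have e3 : v * 1 ≤ v * (V S a ∩ V S b).card := Nat.mul_le_mul_left _ e2
      omega
    · have e1 : (Qs S a ∩ Qs S b).card * (V S a ∩ V S b).card = v := by
        rw [card_QQ h]
        exact hE _ (fun e => hb.2.2 (eq_of_mul h _ _ e).symm) hab
      obtain ⟨x, hx⟩ : ∃ x, x = (Qs S a ∩ Qs S b).card := ⟨_, rfl⟩
      obtain ⟨r, hr⟩ : ∃ r, r = (V S a ∩ V S b).card := ⟨_, rfl⟩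
      rw [← hx, ← hr] at e1 ⊢
      rw [← hr] at e2
      rw [if_neg hab, add_zero]
      by_cases hr1 : r = 1
      · rw [hr1, mul_one] at e1
        rw [hr1, e1]
        omega
      · obtain ⟨s, rfl⟩ : ∃ s, r = s + 2 := ⟨r - 2, by omega⟩
        rw [← e1]
        rcases Nat.eq_zero_or_pos s with e | e
        · subst e
          nlinarith
        · obtain ⟨s', rfl⟩ : ∃ s', s = s' + 1 := ⟨s - 1, by omega⟩
          nlinarith [Nat.zero_le (x * (s' * (s' + 1)))]
  have hkey2 := sum_le_sum hkey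
  rw [sum_const, smul_eq_mul, sum_add_distrib, sum_add_distrib, ← mul_sum,
    ← mul_sum, ← sum_filter, sum_const, smul_eq_mul] at hkey2
  have hEB : (B.filter (fun b => a * b ∈ E)).card ≤ E.card := by
    refine card_le_card_of_injOn (fun b => a * b) (fun b hb => ?_)
      (fun x _ y _ e => mul_left_cancel e)
    exact (mem_filter.1 hb).2
  have hT : ((Qs S a).erase S.zero).card + 1 = v := by
    rw [card_erase_of_mem (zero_mem_Qs h a), hNa]
    omega
  have hup : ∑ t ∈ (Qs S a).erase S.zero, 4 * (X S t).card ≤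
      ((Qs S a).erase S.zero).card * (4 + v * (v - 1)) := by
    rw [← smul_eq_mul, ← sum_const]
    refine sum_le_sum fun t ht => ?_
    rw [mem_erase] at ht
    have e1 := slots_bound h hle ht.1 (ha3 ht.2)
    have e3 : 4 * (V S c).card * (v - 1) ≤ v * (v - 1) := Nat.mul_le_mul_right _ hcon
    have e4 : 4 * (V S c).card * (v - 1) = 4 * ((V S c).card * (v - 1)) := by ring
    omega
  rw [← mul_sum] at hup
  obtain ⟨σ, hσ⟩ : ∃ σ, σ = ∑ t ∈ (Qs S a).erase S.zero, (X S t).card := ⟨_, rfl⟩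
  obtain ⟨τ, hτ⟩ : ∃ τ, τ = ((Qs S a).erase S.zero).card := ⟨_, rfl⟩
  obtain ⟨x, hx⟩ : ∃ x, x = ∑ b ∈ B, (Qs S a ∩ Qs S b).card := ⟨_, rfl⟩
  obtain ⟨r, hr1⟩ : ∃ r, r = ∑ b ∈ B, (V S a ∩ V S b).card := ⟨_, rfl⟩
  obtain ⟨e', he'⟩ : ∃ e', e' = (B.filter (fun b => a * b ∈ E)).card := ⟨_, rfl⟩
  obtain ⟨e, he⟩ : ∃ e, e = E.card := ⟨_, rfl⟩
  rw [← hx, ← hr1, ← he'] at hkey2
  rw [← hσ, ← hτ] at hup
  rw [← hτ] at hT
  rw [← hσ, ← hx] at hsx
  rw [← hr1] at hsr
  rw [← he', ← he] at hEB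
  rw [← he, ← hG] at hEG
  obtain ⟨v', rfl⟩ : ∃ v', v = v' + 1 := ⟨v - 1, by omega⟩
  rw [Nat.add_sub_cancel] at hup
  have hτ' : τ = v' := by omega
  rw [hτ'] at hup
  have z0 : 4 * (σ : ℤ) ≤ v' * (4 + (v' + 1) * v') := by exact_mod_cast hup
  have z1 : (σ : ℤ) + (v' + 1) * (v' + 1) = 1 + (v' + 1) + x := by exact_mod_cast hsx
  have z2 : ((v' : ℤ) + 1) + (v' + 1) + r + (v' + 1) ≤
      (v' + 1) * (v' + 1) + (v' + 1) * (v' + 1) := by exact_mod_cast hsr
  have z5 : (B.card : ℤ) = (v' + 1) * (v' + 1) - 2 := by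
    have : ((B.card + 2 : ℕ) : ℤ) = (((v' + 1) * (v' + 1) : ℕ) : ℤ) := by rw [hBc]
    push_cast at this
    linarith
  have z6 : (B.card : ℤ) * (5 * (v' + 1)) ≤
      6 * x + (v' + 1) * r + e' * (4 * (v' + 1)) := by exact_mod_cast hkey2
  have z7 : (e' : ℤ) ≤ e := by exact_mod_cast hEB
  have z8 : (7 : ℤ) ≤ v' := by exact_mod_cast (by omega : 7 ≤ v')
  have z8' : 16 * (e : ℤ) ≤ (v' + 1) * (v' + 1) := by exact_mod_cast hEG
  rw [z5] at z6
  have z9 : ((v' : ℤ) + 1) * r ≤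
      (v' + 1) * ((v' + 1) * (v' + 1) + (v' + 1) * (v' + 1) - 3 * (v' + 1)) :=
    mul_le_mul_of_nonneg_left (by linarith) (by linarith)
  have z10 : (e' : ℤ) * (4 * (v' + 1)) ≤ e * (4 * (v' + 1)) :=
    mul_le_mul_of_nonneg_right z7 (by linarith)
  have z11 : 16 * (e : ℤ) * (v' + 1) ≤ (v' + 1) * (v' + 1) * (v' + 1) :=
    mul_le_mul_of_nonneg_right z8' (by linarith)
  have z12 : (x : ℤ) = σ + (v' + 1) * (v' + 1) - 1 - (v' + 1) := by linarith
  rw [z12] at z6
  have y1 : 0 ≤ (v' : ℤ) * (v' - 7) := mul_nonneg (by linarith) (by linarith)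
  have y2 : 0 ≤ (v' : ℤ) * v' * (v' - 7) :=
    mul_nonneg (mul_nonneg (by linarith) (by linarith)) (by linarith)
  nlinarith

include h hle hE in
/-- an element of `Sub S E c` has few `b` with `V(a) ∩ V(b) = 1` -/
theorem few_one' (hw : ∀ c ∈ E, 2 * (V S c).card = v) (hv : 8 ≤ v)
    (hG : v * v = Fintype.card S.G) {c : S.G} (hc : c ∈ E) {a : S.G} (ha : a ∈ Sub S E c) :
    4 * (univ.filter (fun b : S.G => b ≠ 1 ∧ b ≠ a ∧ a * b ∉ E ∧
      (V S a ∩ V S b).card = 1)).card ≤ 3 * E.card := by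
  obtain ⟨⟨ha1, ha2⟩, ha3⟩ := mem_Sub.1 ha
  have hva : (V S a).card = v := hE a ha1 ha2
  have hNa : (Qs S a).card = v := by
    have := card_Qs h a
    rw [hva, ← hG] at this
    exact Nat.eq_of_mul_eq_mul_right (by omega) this
  obtain ⟨B, hB⟩ : ∃ B : Finset S.G, B = univ.filter (fun x => x ≠ 1 ∧ x ≠ a) := ⟨_, rfl⟩
  have hBc : B.card + 2 = v * v := by
    have := sum_two ha1.symm (fun _ : S.G => 1)
    rw [← hB, sum_const, sum_const, card_univ, smul_eq_mul, smul_eq_mul, mul_one, mul_one] at this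
    omega
  have hsr := sum_r_le h hle a
  rw [sum_two ha1.symm, V_inter_one h, inter_self, hva, ← hB, ← hG] at hsr
  have hsx := sum_slots h a
  rw [sum_two ha1.symm, Qs_inter_one h, inter_self, hNa, ← hB, ← hG] at hsx
  have hkey : ∀ b ∈ B, 10 * v + (if a * b ∉ E ∧ (V S a ∩ V S b).card = 1 then 4 * v else 0) ≤
      12 * (Qs S a ∩ Qs S b).card + 2 * v * (V S a ∩ V S b).card +
      if a * b ∈ E then 3 * v else 0 := by
    intro b hb
    rw [hB, mem_filter] at hb
    have e2 := one_mem_cap h a b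
    have e0 := card_QQ h a b
    obtain ⟨x, hx⟩ : ∃ x, x = (Qs S a ∩ Qs S b).card := ⟨_, rfl⟩
    obtain ⟨r, hr⟩ : ∃ r, r = (V S a ∩ V S b).card := ⟨_, rfl⟩
    rw [← hx, ← hr] at e0 ⊢
    rw [← hr] at e2
    by_cases hab : a * b ∈ E
    · rw [if_neg (fun e => e.1 hab), if_pos hab, add_zero]
      have e1 : 2 * (x * r) = v := by rw [e0]; exact hw _ hab
      -- `7 v ≤ 12 x + 2 v r`, `v = 2 x r`
      rw [← e1]
      obtain ⟨s, rfl⟩ : ∃ s, r = s + 1 := ⟨r - 1, by omega⟩
      rcases Nat.eq_zero_or_pos s with e | e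
      · subst e
        nlinarith
      · obtain ⟨s', rfl⟩ : ∃ s', s = s' + 1 := ⟨s - 1, by omega⟩
        nlinarith [Nat.zero_le (x * (s' * s')), Nat.zero_le (x * s')]
    · have e1 : x * r = v := by
        rw [e0]
        exact hE _ (fun e => hb.2.2 (eq_of_mul h _ _ e).symm) hab
      rw [if_neg hab, add_zero]
      by_cases hr1 : r = 1
      · rw [if_pos ⟨hab, hr1⟩]
        rw [hr1, mul_one] at e1
        rw [hr1, e1]
        omega
      · rw [if_neg (fun e => hr1 e.2), add_zero]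
        obtain ⟨s, rfl⟩ : ∃ s, r = s + 2 := ⟨r - 2, by omega⟩
        rw [← e1]
        rcases Nat.eq_zero_or_pos s with e | e
        · subst e
          nlinarith
        · obtain ⟨s', rfl⟩ : ∃ s', s = s' + 1 := ⟨s - 1, by omega⟩
          nlinarith [Nat.zero_le (x * (s' * (s' + 1)))]
  have hkey2 := sum_le_sum hkey
  rw [sum_add_distrib, sum_const, smul_eq_mul, sum_add_distrib, sum_add_distrib, ← mul_sum,
    ← mul_sum, ← sum_filter, ← sum_filter, sum_const, sum_const, smul_eq_mul,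
    smul_eq_mul] at hkey2
  have hEB : (B.filter (fun b => a * b ∈ E)).card ≤ E.card := by
    refine card_le_card_of_injOn (fun b => a * b) (fun b hb => ?_)
      (fun x _ y _ e => mul_left_cancel e)
    exact (mem_filter.1 hb).2
  have hP : univ.filter (fun b : S.G => b ≠ 1 ∧ b ≠ a ∧ a * b ∉ E ∧
      (V S a ∩ V S b).card = 1) = B.filter (fun b => a * b ∉ E ∧ (V S a ∩ V S b).card = 1) := by
    rw [hB, filter_filter]
    refine filter_congr fun b _ => ?_
    tauto
  rw [hP]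
  have hT : ((Qs S a).erase S.zero).card + 1 = v := by
    rw [card_erase_of_mem (zero_mem_Qs h a), hNa]
    omega
  have hup : ∑ t ∈ (Qs S a).erase S.zero, 2 * (X S t).card ≤
      ((Qs S a).erase S.zero).card * (2 + v * (v - 1)) := by
    rw [← smul_eq_mul, ← sum_const]
    refine sum_le_sum fun t ht => ?_
    rw [mem_erase] at ht
    exact slots_bound_E h hle (fun d hd => (hw d hd).le) ht.1 hc (ha3 ht.2)
  rw [← mul_sum] at hup
  obtain ⟨σ, hσ⟩ : ∃ σ, σ = ∑ t ∈ (Qs S a).erase S.zero, (X S t).card := ⟨_, rfl⟩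
  obtain ⟨τ, hτ⟩ : ∃ τ, τ = ((Qs S a).erase S.zero).card := ⟨_, rfl⟩
  obtain ⟨x, hx⟩ : ∃ x, x = ∑ b ∈ B, (Qs S a ∩ Qs S b).card := ⟨_, rfl⟩
  obtain ⟨r, hr1⟩ : ∃ r, r = ∑ b ∈ B, (V S a ∩ V S b).card := ⟨_, rfl⟩
  obtain ⟨e', he'⟩ : ∃ e', e' = (B.filter (fun b => a * b ∈ E)).card := ⟨_, rfl⟩
  obtain ⟨p, hp⟩ : ∃ p, p = (B.filter (fun b => a * b ∉ E ∧ (V S a ∩ V S b).card = 1)).card :=
    ⟨_, rfl⟩
  obtain ⟨e, he⟩ : ∃ e, e = E.card := ⟨_, rfl⟩
  rw [← hx, ← hr1, ← he', ← hp] at hkey2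
  rw [← hσ, ← hτ] at hup
  rw [← hτ] at hT
  rw [← hσ, ← hx] at hsx
  rw [← hr1] at hsr
  rw [← he', ← he] at hEB
  rw [← hp, ← he]
  obtain ⟨v', rfl⟩ : ∃ v', v = v' + 1 := ⟨v - 1, by omega⟩
  rw [Nat.add_sub_cancel] at hup
  have hτ' : τ = v' := by omega
  rw [hτ'] at hup
  have z0 : 2 * (σ : ℤ) ≤ v' * (2 + (v' + 1) * v') := by exact_mod_cast hup
  have z1 : (σ : ℤ) + (v' + 1) * (v' + 1) = 1 + (v' + 1) + x := by exact_mod_cast hsx
  have z2 : ((v' : ℤ) + 1) + (v' + 1) + r + (v' + 1) ≤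
      (v' + 1) * (v' + 1) + (v' + 1) * (v' + 1) := by exact_mod_cast hsr
  have z5 : (B.card : ℤ) = (v' + 1) * (v' + 1) - 2 := by
    have : ((B.card + 2 : ℕ) : ℤ) = (((v' + 1) * (v' + 1) : ℕ) : ℤ) := by rw [hBc]
    push_cast at this
    linarith
  have z6 : (B.card : ℤ) * (10 * (v' + 1)) + p * (4 * (v' + 1)) ≤
      12 * x + 2 * (v' + 1) * r + e' * (3 * (v' + 1)) := by exact_mod_cast hkey2
  have z7 : (e' : ℤ) ≤ e := by exact_mod_cast hEB
  have z8 : (7 : ℤ) ≤ v' := by exact_mod_cast (by omega : 7 ≤ v')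
  rw [z5] at z6
  have z9 : ((v' : ℤ) + 1) * r ≤
      (v' + 1) * ((v' + 1) * (v' + 1) + (v' + 1) * (v' + 1) - 3 * (v' + 1)) :=
    mul_le_mul_of_nonneg_left (by linarith) (by linarith)
  have z10 : (e' : ℤ) * (3 * (v' + 1)) ≤ e * (3 * (v' + 1)) :=
    mul_le_mul_of_nonneg_right z7 (by linarith)
  have z12 : (x : ℤ) = σ + (v' + 1) * (v' + 1) - 1 - (v' + 1) := by linarith
  have z13 : (v' + 1) * (4 * (p : ℤ)) ≤ (v' + 1) * (3 * e) := by
    have y1 : 0 ≤ (v' : ℤ) * (v' - 7) := mul_nonneg (by linarith) (by linarith)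
    nlinarith
  have z14 := le_of_mul_le_mul_left z13 (by linarith)
  exact_mod_cast z14

include h hle hE in
/-- the case where the index is equal to the order -/
theorem midA16 (hw : ∀ c ∈ E, 2 * (V S c).card = v) (hv : 8 ≤ v)
    (hG : v * v = Fintype.card S.G) (hEG : 16 * E.card ≤ Fintype.card S.G) : E.card ≤ v := by
  by_contra hcon
  push Not at hcon
  obtain ⟨F, hF, hF4⟩ := exists_subset_card_eq (show 4 ≤ E.card by omega)
  obtain ⟨c4, hc4⟩ : F.Nonempty := card_pos.1 (by omega)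
  obtain ⟨c1, c2, c3, h12, h13, h23, hF3⟩ := card_eq_three.1
    (show (F.erase c4).card = 3 by rw [card_erase_of_mem hc4, hF4])
  have k1 : c1 ∈ F.erase c4 := by rw [hF3]; simp
  have k2 : c2 ∈ F.erase c4 := by rw [hF3]; simp
  have k3 : c3 ∈ F.erase c4 := by rw [hF3]; simp
  rw [mem_erase] at k1 k2 k3
  have m1 : c1 ∈ E := hF k1.2
  have m2 : c2 ∈ E := hF k2.2
  have m3 : c3 ∈ E := hF k3.2
  have m4 : c4 ∈ E := hF hc4
  have hw' : ∀ c ∈ E, 2 * (V S c).card ≤ v := fun c hc => (hw c hc).le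
  have a1 := half h hle hE hw' (by omega) hG m1
  have a2 := half h hle hE hw' (by omega) hG m2
  have a3 := half h hle hE hw' (by omega) hG m3
  have a4 := half h hle hE hw' (by omega) hG m4
  -- two of them have a large intersection
  have u1 := card_union_add_card_inter (Sub S E c1) (Sub S E c2)
  have u2 := card_union_add_card_inter (Sub S E c1 ∪ Sub S E c2) (Sub S E c3)
  have u3 := card_union_add_card_inter (Sub S E c1 ∪ Sub S E c2 ∪ Sub S E c3) (Sub S E c4)
  have u4 : ((Sub S E c1 ∪ Sub S E c2) ∩ Sub S E c3).card ≤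
      (Sub S E c1 ∩ Sub S E c3).card + (Sub S E c2 ∩ Sub S E c3).card := by
    rw [union_inter_distrib_right]
    exact card_union_le _ _
  have u5 : ((Sub S E c1 ∪ Sub S E c2 ∪ Sub S E c3) ∩ Sub S E c4).card ≤
      (Sub S E c1 ∩ Sub S E c4).card + (Sub S E c2 ∩ Sub S E c4).card +
      (Sub S E c3 ∩ Sub S E c4).card := by
    rw [union_inter_distrib_right, union_inter_distrib_right]
    refine (card_union_le _ _).trans (Nat.add_le_add_right (card_union_le _ _) _)
  have u6 : (Sub S E c1 ∪ Sub S E c2 ∪ Sub S E c3 ∪ Sub S E c4).card ≤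
      Fintype.card S.G := card_le_univ _
  -- such an intersection is small
  have hsmall : ∀ {c d : S.G}, c ∈ E → d ∈ E → c ≠ d →
      4 * (Sub S E c ∩ Sub S E d).card ≤ 3 * E.card + 4 := by
    intro c d hc hd hcd
    rcases (Sub S E c ∩ Sub S E d).eq_empty_or_nonempty with e0 | ⟨a, ha⟩
    · rw [e0, card_empty]; omega
    rw [mem_inter] at ha
    obtain ⟨hac, had⟩ := ha
    have hq : ∀ b ∈ Sub S E c ∩ Sub S E d, Qs S b = Qs S c ∩ Qs S d := by
      intro b hb
      rw [mem_inter, mem_Sub, mem_Sub] at hb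
      obtain ⟨⟨⟨b1, b2⟩, b3⟩, _, b4⟩ := hb
      refine eq_of_subset_of_card_le (subset_inter b3 b4) ?_
      have e1 := card_QQ h c d
      have e2 := one_mem_cap h c d
      have e3 := hle (c * d) (fun e => hcd (eq_of_mul h _ _ e))
      have e4 : (Qs S c ∩ Qs S d).card * 1 ≤ (Qs S c ∩ Qs S d).card * (V S c ∩ V S d).card :=
        Nat.mul_le_mul_left _ e2
      have e5 : (Qs S b).card = v := by
        have := card_Qs h b
        rw [hE b b1 b2, ← hG] at this
        exact Nat.eq_of_mul_eq_mul_right (by omega) this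
      omega
    have h1 := few_one' h hle hE hw hv hG hc hac
    have hsub : Sub S E c ∩ Sub S E d ⊆ insert a (univ.filter (fun b : S.G => b ≠ 1 ∧ b ≠ a ∧
        a * b ∉ E ∧ (V S a ∩ V S b).card = 1)) := by
      intro b hb
      rw [mem_insert, mem_filter]
      by_cases b1 : b = a
      · exact Or.inl b1
      right
      have hb' := hb
      rw [mem_inter, mem_Sub] at hb'
      have e1 := card_QQ h a b
      have e5 : (Qs S b).card = v := by
        have := card_Qs h b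
        rw [hE b hb'.1.1.1 hb'.1.1.2, ← hG] at this
        exact Nat.eq_of_mul_eq_mul_right (by omega) this
      rw [hq a (mem_inter.2 ⟨hac, had⟩), hq b hb, inter_self, ← hq b hb, e5] at e1
      have b2 : a * b ∉ E := by
        intro hc2
        have e6 := hw _ hc2
        have e7 := one_mem_cap h a b
        have e8 : v * 1 ≤ v * (V S a ∩ V S b).card := Nat.mul_le_mul_left _ e7
        omega
      refine ⟨mem_univ _, hb'.1.1.1, b1, b2, ?_⟩
      rw [hE (a * b) (fun e => b1 (eq_of_mul h _ _ e).symm) b2] at e1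
      have : v * (V S a ∩ V S b).card = v * 1 := by rw [e1, mul_one]
      exact Nat.eq_of_mul_eq_mul_left (by omega) this
    have h3 := (card_le_card hsub).trans (card_insert_le _ _)
    omega
  have s1 := hsmall m1 m2 h12
  have s2 := hsmall m1 m3 h13
  have s3 := hsmall m2 m3 h23
  have s4 := hsmall m1 m4 k1.1
  have s5 := hsmall m2 m4 k2.1
  have s6 := hsmall m3 m4 k3.1
  omega

end

end Pool.Agent.H836.HM
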