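import Mathlib
import Pool.Agent.H836.HM.PropA

set_option autoImplicit false
set_option linter.unusedSectionVars false

/-!
# A positive proportion of exceptional elements: index equal to half the order
-/

namespace Pool.Agent.H836.HM

open Finset
open Pool.Agent.H315R3.ETC Pool.Agent.TH673.VG Pool.Agent.Q6.EV Pool.Agent.H836.HC

open Classical

noncomputable section

variable {S : QData} (h : IsQuat S) [Fintype S.G]

/-- the `y` such that `b` is a slot of `q(z,y)` -/
def K (z b : S.G) : Subgroup S.G where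
  carrier := {y | S.q z y ∈ Qs S b}
  one_mem' := by
    rw [Set.mem_ofPred_eq, q_one h]
    exact zero_mem_Qs h b
  mul_mem' := by
    intro y1 y2 hy1 hy2
    rw [Set.mem_ofPred_eq, mem_Qs] at hy1 hy2 ⊢
    obtain ⟨u1, hu1⟩ := hy1
    obtain ⟨u2, hu2⟩ := hy2
    obtain ⟨x1, e1, f1⟩ := h.qs4 z y1 b u1 hu1.symm
    obtain ⟨x2, e2, f2⟩ := h.qs4 z y2 b u2 hu2.symm
    have g1 : S.q (z * b) x1 = S.zero := by
      rw [h.qs2, ← h.qs3, h.qs2 x1 z, h.qs2 x1 b, ← e1, ← f1, hu1]
    have g2 : S.q (z * b) x2 = S.zero := by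
      rw [h.qs2, ← h.qs3, h.qs2 x2 z, h.qs2 x2 b, ← e2, ← f2, hu2]
    have g3 : S.q (z * b) (x1 * x2) = S.zero := p_mul h g1 g2
    have g4 : S.q z (x1 * x2) = S.q b (x1 * x2) := by
      rw [h.qs2, ← h.qs3] at g3
      rw [h.qs2 z, h.qs2 b]
      exact g3
    have g5 : S.q z (y1 * y2) = S.q z (x1 * x2) := by
      rw [h.qs3] at e1 e2 ⊢
      have := p_mul h e1 e2
      rwa [show y1 * x1 * (y2 * x2) = y1 * y2 * (x1 * x2) from by
        rw [mul_mul_mul_comm]] at this
    exact ⟨x1 * x2, by rw [g5, g4]⟩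
  inv_mem' := by
    intro y hy
    have : y⁻¹ = y := inv_eq_of_mul_eq_one_left (h.exp2 y)
    rw [this]
    exact hy

theorem mem_K {z b y : S.G} : y ∈ K h z b ↔ S.q z y ∈ Qs S b := Iff.rfl

include h in
/-- a large subgroup is everything -/
theorem eq_top_of_large {H : Subgroup S.G}
    (hH : Fintype.card S.G < 2 * (univ.filter (fun x : S.G => x ∈ H)).card) : H = ⊤ := by
  by_contra hne
  have h1 : ∃ g : S.G, g ∉ H := by
    by_contra hc
    push Not at hc
    exact hne (eq_top_iff.2 fun x _ => hc x)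
  obtain ⟨g, hg⟩ := h1
  have h2 : (univ.filter (fun x : S.G => x ∈ H)).card ≤
      (univ.filter (fun x : S.G => ¬ x ∈ H)).card := by
    refine card_le_card_of_injOn (fun x => g * x) (fun x hx => ?_)
      (fun x _ y _ e => mul_left_cancel e)
    have hx' : x ∈ H := (mem_filter.1 hx).2
    refine mem_filter.2 ⟨mem_univ _, fun hc => hg ?_⟩
    exact (Subgroup.mul_mem_cancel_right H hx').1 hc
  have h3 := card_filter_add_card_filter_not (s := (univ : Finset S.G)) (fun x : S.G => x ∈ H)
  rw [card_univ] at h3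
  omega

include h in
/-- two proper subgroups miss at least a quarter of the elements -/
theorem quarter {H1 H2 : Subgroup S.G} (h1 : H1 ≠ ⊤) (h2 : H2 ≠ ⊤) :
    Fintype.card S.G ≤ 4 * (univ.filter (fun x : S.G => x ∉ H1 ∧ x ∉ H2)).card := by
  obtain ⟨g1, g2, hg⟩ : ∃ g1 g2 : S.G, ∀ y : S.G, (y ∉ H1 ∧ y ∉ H2) ∨
      (g1 * y ∉ H1 ∧ g1 * y ∉ H2) ∨ (g2 * y ∉ H1 ∧ g2 * y ∉ H2) ∨
      ((g1 * g2) * y ∉ H1 ∧ (g1 * g2) * y ∉ H2) := by
    have hx : ∀ {H : Subgroup S.G}, H ≠ ⊤ → ∃ g : S.G, g ∉ H := by
      intro H hH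
      by_contra hc
      push Not at hc
      exact hH (eq_top_iff.2 fun x _ => hc x)
    by_cases c1 : H1 ≤ H2
    · obtain ⟨g, hg⟩ := hx h2
      refine ⟨g, 1, fun y => ?_⟩
      by_cases d : y ∈ H2
      · right; left
        have : g * y ∉ H2 := fun hc => hg ((Subgroup.mul_mem_cancel_right H2 d).1 hc)
        exact ⟨fun e => this (c1 e), this⟩
      · exact Or.inl ⟨fun e => d (c1 e), d⟩
    by_cases c2 : H2 ≤ H1
    · obtain ⟨g, hg⟩ := hx h1
      refine ⟨g, 1, fun y => ?_⟩
      by_cases d : y ∈ H1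
      · right; left
        have : g * y ∉ H1 := fun hc => hg ((Subgroup.mul_mem_cancel_right H1 d).1 hc)
        exact ⟨this, fun e => this (c2 e)⟩
      · exact Or.inl ⟨d, fun e => d (c2 e)⟩
    obtain ⟨a, ha1, ha2⟩ := SetLike.not_le_iff_exists.1 c1
    obtain ⟨b, hb1, hb2⟩ := SetLike.not_le_iff_exists.1 c2
    refine ⟨a, b, fun y => ?_⟩
    by_cases d1 : y ∈ H1 <;> by_cases d2 : y ∈ H2
    · right; right; right
      constructor
      · intro hc
        have := (Subgroup.mul_mem_cancel_right H1 d1).1 hc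
        exact hb2 ((Subgroup.mul_mem_cancel_left H1 ha1).1 this)
      · intro hc
        have := (Subgroup.mul_mem_cancel_right H2 d2).1 hc
        exact ha2 ((Subgroup.mul_mem_cancel_right H2 hb1).1 this)
    · right; right; left
      constructor
      · intro hc
        exact hb2 ((Subgroup.mul_mem_cancel_right H1 d1).1 hc)
      · intro hc
        exact d2 ((Subgroup.mul_mem_cancel_left H2 hb1).1 hc)
    · right; left
      constructor
      · intro hc
        exact d1 ((Subgroup.mul_mem_cancel_left H1 ha1).1 hc)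
      · intro hc
        exact ha2 ((Subgroup.mul_mem_cancel_right H2 d2).1 hc)
    · exact Or.inl ⟨d1, d2⟩
  have hshift : ∀ g : S.G, (univ.filter (fun x : S.G => g * x ∉ H1 ∧ g * x ∉ H2)).card ≤
      (univ.filter (fun x : S.G => x ∉ H1 ∧ x ∉ H2)).card := by
    intro g
    refine card_le_card_of_injOn (fun x => g * x) (fun x hx => ?_)
      (fun x _ y _ e => mul_left_cancel e)
    exact mem_filter.2 ⟨mem_univ _, (mem_filter.1 hx).2⟩
  have hsub : (univ : Finset S.G) ⊆ (univ.filter (fun x : S.G => x ∉ H1 ∧ x ∉ H2)) ∪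
      ((univ.filter (fun x : S.G => g1 * x ∉ H1 ∧ g1 * x ∉ H2)) ∪
      ((univ.filter (fun x : S.G => g2 * x ∉ H1 ∧ g2 * x ∉ H2)) ∪
      (univ.filter (fun x : S.G => (g1 * g2) * x ∉ H1 ∧ (g1 * g2) * x ∉ H2)))) := by
    intro y _
    rw [mem_union, mem_union, mem_union, mem_filter, mem_filter, mem_filter, mem_filter]
    rcases hg y with e | e | e | e
    · exact Or.inl ⟨mem_univ _, e⟩
    · exact Or.inr (Or.inl ⟨mem_univ _, e⟩)
    · exact Or.inr (Or.inr (Or.inl ⟨mem_univ _, e⟩))
    · exact Or.inr (Or.inr (Or.inr ⟨mem_univ _, e⟩))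
  have e0 := card_le_card hsub
  rw [card_univ] at e0
  have e1 := card_union_le (univ.filter (fun x : S.G => x ∉ H1 ∧ x ∉ H2))
    ((univ.filter (fun x : S.G => g1 * x ∉ H1 ∧ g1 * x ∉ H2)) ∪
      ((univ.filter (fun x : S.G => g2 * x ∉ H1 ∧ g2 * x ∉ H2)) ∪
      (univ.filter (fun x : S.G => (g1 * g2) * x ∉ H1 ∧ (g1 * g2) * x ∉ H2))))
  have e2 := card_union_le (univ.filter (fun x : S.G => g1 * x ∉ H1 ∧ g1 * x ∉ H2))
    ((univ.filter (fun x : S.G => g2 * x ∉ H1 ∧ g2 * x ∉ H2)) ∪
      (univ.filter (fun x : S.G => (g1 * g2) * x ∉ H1 ∧ (g1 * g2) * x ∉ H2)))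
  have e3 := card_union_le (univ.filter (fun x : S.G => g2 * x ∉ H1 ∧ g2 * x ∉ H2))
    (univ.filter (fun x : S.G => (g1 * g2) * x ∉ H1 ∧ (g1 * g2) * x ∉ H2))
  have f1 := hshift g1
  have f2 := hshift g2
  have f3 := hshift (g1 * g2)
  omega

variable {v : ℕ} (hle : ∀ a : S.G, a ≠ 1 → (V S a).card ≤ v) {E : Finset S.G}
  (hE : ∀ a : S.G, a ≠ 1 → a ∉ E → (V S a).card = v)

include h hle hE in
/-- the case where the index is half the order -/
theorem midL {k l N : ℕ} (hk : v = 2 ^ k) (hl : N = 2 ^ l) (hw : ∀ c ∈ E, 2 * (V S c).card ≤ v)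
    (hNv : N * v = Fintype.card S.G) (hN4 : 4 ≤ N) (h2N : v = 2 * N)
    (hEG : 32 * E.card ≤ Fintype.card S.G) : E = ∅ := by
  have hv0 : 0 < v := by omega
  have hG2 : 2 * Fintype.card S.G = v * v := by rw [← hNv]; nlinarith
  have cQ : ∀ {b : S.G}, b ≠ 1 → b ∉ E → (Qs S b).card = N := by
    intro b b1 b2
    have := card_Qs h b
    rw [hE b b1 b2, ← hNv] at this
    exact Nat.eq_of_mul_eq_mul_right hv0 this
  have hG32 : 32 ≤ Fintype.card S.G := by
    rw [← hNv, h2N]
    nlinarith
  -- an element outside `E`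
  obtain ⟨a, ha1, ha2⟩ : ∃ a : S.G, a ≠ 1 ∧ a ∉ E := by
    by_contra hc
    push Not at hc
    have hsub : (univ : Finset S.G) ⊆ insert 1 E := by
      intro a _
      rw [mem_insert]
      by_cases e1 : a = 1
      · exact Or.inl e1
      · exact Or.inr (hc a e1)
    have e1 := card_le_card hsub
    have e2 := card_insert_le (1 : S.G) E
    rw [card_univ] at e1
    omega
  -- the classes are large
  have hcls : ∀ {a : S.G}, a ≠ 1 → a ∉ E → Fintype.card S.G + v ≤
      2 * (univ.filter (fun b => Qs S b = Qs S a)).card + 6 * E.card := by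
    intro a ha1 ha2
    have hva : (V S a).card = v := hE a ha1 ha2
    have hNa := cQ ha1 ha2
    have hsr := sum_r_le h hle a
    rw [hva] at hsr
    have hkey : ∀ b ∈ (univ : Finset S.G), 4 ≤ (V S a ∩ V S b).card +
        ((if Qs S b = Qs S a then 2 else 0) + ((if b ∈ E then 3 else 0) +
        if a * b ∈ E then 3 else 0)) := by
      intro b _
      have e2 := one_mem_cap h a b
      by_cases c1 : b ∈ E
      · rw [if_pos c1]; omega
      by_cases c2 : a * b ∈ E
      · rw [if_pos c2]; omega
      by_cases c3 : b = 1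
      · rw [c3, V_inter_one h, hva]; omega
      by_cases c4 : b = a
      · rw [c4, inter_self, hva]; omega
      have e1 : (Qs S a ∩ Qs S b).card * (V S a ∩ V S b).card = v := by
        rw [card_QQ h]
        exact hE _ (fun e => c4 (eq_of_mul h _ _ e).symm) c2
      obtain ⟨s, _, hs⟩ := (Nat.dvd_prime_pow Nat.prime_two).1
        (show (V S a ∩ V S b).card ∣ 2 ^ k from hk ▸ Dvd.intro_left _ e1)
      have e3 : (Qs S a ∩ Qs S b).card ≤ N := by
        rw [← hNa]; exact card_le_card inter_subset_left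
      by_cases c5 : Qs S b = Qs S a
      · rw [if_pos c5]
        rw [c5, inter_self, hNa] at e1
        have : N * (V S a ∩ V S b).card = N * 2 := by rw [e1, h2N]; ring
        have := Nat.eq_of_mul_eq_mul_left (by omega : 0 < N) this
        omega
      · have e4 : (Qs S a ∩ Qs S b).card < N := by
          by_contra hc
          push Not at hc
          have e3 : Qs S a ∩ Qs S b = Qs S a :=
            eq_of_subset_of_card_le inter_subset_left (by omega)
          have e4 : Qs S a ∩ Qs S b = Qs S b :=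
            eq_of_subset_of_card_le inter_subset_right (by rw [cQ c3 c1]; exact hc)
          exact c5 (e4.symm.trans e3)
        have e5 : 2 < (V S a ∩ V S b).card := by
          by_contra hc
          push Not at hc
          have : (Qs S a ∩ Qs S b).card * (V S a ∩ V S b).card ≤ (Qs S a ∩ Qs S b).card * 2 :=
            Nat.mul_le_mul_left _ hc
          omega
        have e6 : 2 ≤ s := by
          by_contra hc
          rcases (by omega : s = 0 ∨ s = 1) with e | e <;> rw [e] at hs <;> omega
        have : 4 ≤ (V S a ∩ V S b).card := by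
          rw [hs]
          calc 4 = 2 ^ 2 := by norm_num
            _ ≤ 2 ^ s := Nat.pow_le_pow_right (by norm_num) e6
        omega
    have hkey2 := sum_le_sum hkey
    rw [sum_const, smul_eq_mul, sum_add_distrib, sum_add_distrib, sum_add_distrib, ← sum_filter,
      ← sum_filter, ← sum_filter, sum_const, sum_const, sum_const, smul_eq_mul, smul_eq_mul,
      smul_eq_mul, card_univ] at hkey2
    have hE1 : (univ.filter (fun b : S.G => b ∈ E)).card ≤ E.card :=
      card_le_card fun b hb => (mem_filter.1 hb).2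
    have hE2 : (univ.filter (fun b : S.G => a * b ∈ E)).card ≤ E.card := by
      refine card_le_card_of_injOn (fun b => a * b) (fun b hb => ?_)
        (fun x _ y _ e => mul_left_cancel e)
      exact (mem_filter.1 hb).2
    omega
  by_cases hone : ∀ b : S.G, b ≠ 1 → b ∉ E → Qs S b = Qs S a
  · -- one class
    by_contra hne
    obtain ⟨c, hc⟩ := nonempty_iff_ne_empty.2 hne
    have h1 : (univ.filter (fun y : S.G => ¬ y ∈ K h c a)).card ≤ E.card + 1 := by
      refine (card_le_card (t := insert 1 E) fun y hy => ?_).trans (card_insert_le _ _)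
      rw [mem_filter] at hy
      by_contra hc2
      rw [mem_insert] at hc2
      push Not at hc2
      apply hy.2
      rw [mem_K, ← hone y hc2.1 hc2.2, mem_Qs]
      exact ⟨c, h.qs2 _ _⟩
    have h2 := card_filter_add_card_filter_not (s := (univ : Finset S.G))
      (fun x : S.G => x ∈ K h c a)
    rw [card_univ] at h2
    have h3 : K h c a = ⊤ := eq_top_of_large h (by omega)
    have h4 : Qs S c ⊆ Qs S a := by
      intro t ht
      obtain ⟨y, rfl⟩ := mem_Qs.1 ht
      have : y ∈ K h c a := by rw [h3]; exact Subgroup.mem_top y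
      exact this
    have h5 := card_le_card h4
    rw [cQ ha1 ha2] at h5
    have h6 := card_Qs h c
    have h7 := hw c hc
    have h8 : (Qs S c).card * (V S c).card ≤ N * (V S c).card := Nat.mul_le_mul_right _ h5
    have h9 : N * (V S c).card < N * v := Nat.mul_lt_mul_of_pos_left (by omega) (by omega)
    omega
  · -- two classes
    exfalso
    push Not at hone
    obtain ⟨a', ha1', ha2', haa⟩ := hone
    have hp1 : K h a a' ≠ ⊤ := by
      intro e
      have h4 : Qs S a ⊆ Qs S a' := by
        intro t ht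
        obtain ⟨y, rfl⟩ := mem_Qs.1 ht
        have : y ∈ K h a a' := by rw [e]; exact Subgroup.mem_top y
        exact this
      exact haa (eq_of_subset_of_card_le h4 (by rw [cQ ha1 ha2, cQ ha1' ha2'])).symm
    have hp2 : K h a' a ≠ ⊤ := by
      intro e
      have h4 : Qs S a' ⊆ Qs S a := by
        intro t ht
        obtain ⟨y, rfl⟩ := mem_Qs.1 ht
        have : y ∈ K h a' a := by rw [e]; exact Subgroup.mem_top y
        exact this
      exact haa (eq_of_subset_of_card_le h4 (by rw [cQ ha1 ha2, cQ ha1' ha2']))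
    have hq := quarter h hp1 hp2
    have hd : (univ.filter (fun b => Qs S b = Qs S a)).card +
        (univ.filter (fun b => Qs S b = Qs S a')).card +
        (univ.filter (fun x : S.G => x ∉ K h a a' ∧ x ∉ K h a' a)).card ≤
        Fintype.card S.G := by
      have d1 : Disjoint (univ.filter (fun b => Qs S b = Qs S a))
          (univ.filter (fun b => Qs S b = Qs S a')) := by
        rw [disjoint_left]
        intro b hb hb'
        exact haa ((mem_filter.1 hb').2.symm.trans (mem_filter.1 hb).2)
      have d2 : Disjoint ((univ.filter (fun b => Qs S b = Qs S a)) ∪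
          (univ.filter (fun b => Qs S b = Qs S a')))
          (univ.filter (fun x : S.G => x ∉ K h a a' ∧ x ∉ K h a' a)) := by
        rw [disjoint_left]
        intro b hb hb'
        rw [mem_union, mem_filter, mem_filter] at hb
        rw [mem_filter] at hb'
        rcases hb with ⟨_, hb⟩ | ⟨_, hb⟩
        · apply hb'.2.2
          rw [mem_K, ← hb, mem_Qs]
          exact ⟨a', h.qs2 _ _⟩
        · apply hb'.2.1
          rw [mem_K, ← hb, mem_Qs]
          exact ⟨a, h.qs2 _ _⟩
      rw [← card_union_of_disjoint d1, ← card_union_of_disjoint d2]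
      exact card_le_univ _
    have k1 := hcls ha1 ha2
    have k2 := hcls ha1' ha2'
    omega

end

end Pool.Agent.H836.HM
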