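import Mathlib
import Pool.Agent.H836.HM.MidL

set_option autoImplicit false
set_option linter.unusedSectionVars false

/-!
# At most a sixteenth part of exceptional elements: index equal to half the order
-/

namespace Pool.Agent.H836.HM

open Finset
open Pool.Agent.H315R3.ETC Pool.Agent.TH673.VG Pool.Agent.Q6.EV Pool.Agent.H836.HC

open Classical

noncomputable section

variable {S : QData} (h : IsQuat S) [Fintype S.G]

variable {v : ℕ} (hle : ∀ a : S.G, a ≠ 1 → (V S a).card ≤ v) {E : Finset S.G}
  (hE : ∀ a : S.G, a ≠ 1 → a ∉ E → (V S a).card = v)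

include h hle hE in
/-- the case where the index is half the order -/
theorem midL16 {k l N : ℕ} (hk : v = 2 ^ k) (hl : N = 2 ^ l) (hw : ∀ c ∈ E, 2 * (V S c).card ≤ v)
    (hNv : N * v = Fintype.card S.G) (hN4 : 4 ≤ N) (h2N : v = 2 * N)
    (hEG : 16 * E.card ≤ Fintype.card S.G) : E = ∅ := by
  have hv0 : 0 < v := by omega
  have hG2 : 2 * Fintype.card S.G = v * v := by rw [← hNv]; nlinarith
  have cQ : ∀ {b : S.G}, b ≠ 1 → b ∉ E → (Qs S b).card = N := by
    intro b b1 b2
    have := card_Qs h b
    rw [hE b b1 b2, ← hNv] at this
    exact Nat.eq_of_mul_eq_mul_right hv0 this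
  have hG32 : 32 ≤ Fintype.card S.G := by
    rw [← hNv, h2N]
    nlinarith
  -- an element outside `E`
  obtain ⟨a, ha1, ha2⟩ : ∃ a : S.G, a ≠ 1 ∧ a ∉ E := by
    by_contra hc
    push Not at hc
    have hsub : (univ : Finset S.G) ⊆ insert 1 E := by
      intro a _
      rw [mem_insert]
      by_cases e1 : a = 1
      · exact Or.inl e1
      · exact Or.inr (hc a e1)
    have e1 := card_le_card hsub
    have e2 := card_insert_le (1 : S.G) E
    rw [card_univ] at e1
    omega
  -- the classes are large
  have hcls : ∀ {a : S.G}, a ≠ 1 → a ∉ E → Fintype.card S.G + v ≤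
      2 * (univ.filter (fun b => Qs S b = Qs S a)).card + 4 * E.card := by
    intro a ha1 ha2
    have hva : (V S a).card = v := hE a ha1 ha2
    have hNa := cQ ha1 ha2
    have hsr := sum_r_le h hle a
    rw [hva] at hsr
    have hkey : ∀ b ∈ (univ : Finset S.G), 4 ≤ (V S a ∩ V S b).card +
        ((if Qs S b = Qs S a then 2 else 0) + ((if b ∈ E then 2 else 0) +
        if a * b ∈ E then 2 else 0)) := by
      intro b _
      have e2 := one_mem_cap h a b
      by_cases c3 : b = 1
      · rw [c3, V_inter_one h, hva]; omega
      by_cases c4 : b = a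
      · rw [c4, inter_self, hva]; omega
      -- a common bound
      have htwo : ∀ {d : S.G}, a * d ≠ 1 → a * d ∉ E → 2 ≤ (V S a ∩ V S d).card := by
        intro d d1 d2
        have e1 := card_QQ h a d
        rw [hE _ d1 d2] at e1
        have e3 : (Qs S a ∩ Qs S d).card ≤ N := by
          rw [← hNa]; exact card_le_card inter_subset_left
        by_contra hc
        have e4 : (Qs S a ∩ Qs S d).card * (V S a ∩ V S d).card ≤ N * 1 :=
          Nat.mul_le_mul e3 (by omega)
        omega
      by_cases c1 : b ∈ E
      · rw [if_pos c1]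
        by_cases c2 : a * b ∈ E
        · rw [if_pos c2]; omega
        · have := htwo (fun e => c4 (eq_of_mul h _ _ e).symm) c2
          omega
      by_cases c2 : a * b ∈ E
      · rw [if_pos c2]
        have e3 : a * (a * b) = b := by rw [← mul_assoc, h.exp2, one_mul]
        have := htwo (d := a * b) (by rw [e3]; exact c3) (by rw [e3]; exact c1)
        rw [cap_mul h] at this
        omega
      have e1 : (Qs S a ∩ Qs S b).card * (V S a ∩ V S b).card = v := by
        rw [card_QQ h]
        exact hE _ (fun e => c4 (eq_of_mul h _ _ e).symm) c2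
      obtain ⟨s, _, hs⟩ := (Nat.dvd_prime_pow Nat.prime_two).1
        (show (V S a ∩ V S b).card ∣ 2 ^ k from hk ▸ Dvd.intro_left _ e1)
      have e3 : (Qs S a ∩ Qs S b).card ≤ N := by
        rw [← hNa]; exact card_le_card inter_subset_left
      by_cases c5 : Qs S b = Qs S a
      · rw [if_pos c5]
        rw [c5, inter_self, hNa] at e1
        have : N * (V S a ∩ V S b).card = N * 2 := by rw [e1, h2N]; ring
        have := Nat.eq_of_mul_eq_mul_left (by omega : 0 < N) this
        omega
      · have e4 : (Qs S a ∩ Qs S b).card < N := by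
          by_contra hc
          push Not at hc
          have e3 : Qs S a ∩ Qs S b = Qs S a :=
            eq_of_subset_of_card_le inter_subset_left (by omega)
          have e4 : Qs S a ∩ Qs S b = Qs S b :=
            eq_of_subset_of_card_le inter_subset_right (by rw [cQ c3 c1]; exact hc)
          exact c5 (e4.symm.trans e3)
        have e5 : 2 < (V S a ∩ V S b).card := by
          by_contra hc
          push Not at hc
          have : (Qs S a ∩ Qs S b).card * (V S a ∩ V S b).card ≤ (Qs S a ∩ Qs S b).card * 2 :=
            Nat.mul_le_mul_left _ hc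
          omega
        have e6 : 2 ≤ s := by
          by_contra hc
          rcases (by omega : s = 0 ∨ s = 1) with e | e <;> rw [e] at hs <;> omega
        have : 4 ≤ (V S a ∩ V S b).card := by
          rw [hs]
          calc 4 = 2 ^ 2 := by norm_num
            _ ≤ 2 ^ s := Nat.pow_le_pow_right (by norm_num) e6
        omega
    have hkey2 := sum_le_sum hkey
    rw [sum_const, smul_eq_mul, sum_add_distrib, sum_add_distrib, sum_add_distrib, ← sum_filter,
      ← sum_filter, ← sum_filter, sum_const, sum_const, sum_const, smul_eq_mul, smul_eq_mul,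
      smul_eq_mul, card_univ] at hkey2
    have hE1 : (univ.filter (fun b : S.G => b ∈ E)).card ≤ E.card :=
      card_le_card fun b hb => (mem_filter.1 hb).2
    have hE2 : (univ.filter (fun b : S.G => a * b ∈ E)).card ≤ E.card := by
      refine card_le_card_of_injOn (fun b => a * b) (fun b hb => ?_)
        (fun x _ y _ e => mul_left_cancel e)
      exact (mem_filter.1 hb).2
    omega
  by_cases hone : ∀ b : S.G, b ≠ 1 → b ∉ E → Qs S b = Qs S a
  · -- one class
    by_contra hne
    obtain ⟨c, hc⟩ := nonempty_iff_ne_empty.2 hne
    have h1 : (univ.filter (fun y : S.G => ¬ y ∈ K h c a)).card ≤ E.card + 1 := by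
      refine (card_le_card (t := insert 1 E) fun y hy => ?_).trans (card_insert_le _ _)
      rw [mem_filter] at hy
      by_contra hc2
      rw [mem_insert] at hc2
      push Not at hc2
      apply hy.2
      rw [mem_K, ← hone y hc2.1 hc2.2, mem_Qs]
      exact ⟨c, h.qs2 _ _⟩
    have h2 := card_filter_add_card_filter_not (s := (univ : Finset S.G))
      (fun x : S.G => x ∈ K h c a)
    rw [card_univ] at h2
    have h3 : K h c a = ⊤ := eq_top_of_large h (by omega)
    have h4 : Qs S c ⊆ Qs S a := by
      intro t ht
      obtain ⟨y, rfl⟩ := mem_Qs.1 ht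
      have : y ∈ K h c a := by rw [h3]; exact Subgroup.mem_top y
      exact this
    have h5 := card_le_card h4
    rw [cQ ha1 ha2] at h5
    have h6 := card_Qs h c
    have h7 := hw c hc
    have h8 : (Qs S c).card * (V S c).card ≤ N * (V S c).card := Nat.mul_le_mul_right _ h5
    have h9 : N * (V S c).card < N * v := Nat.mul_lt_mul_of_pos_left (by omega) (by omega)
    omega
  · -- two classes
    exfalso
    push Not at hone
    obtain ⟨a', ha1', ha2', haa⟩ := hone
    have hp1 : K h a a' ≠ ⊤ := by
      intro e
      have h4 : Qs S a ⊆ Qs S a' := by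
        intro t ht
        obtain ⟨y, rfl⟩ := mem_Qs.1 ht
        have : y ∈ K h a a' := by rw [e]; exact Subgroup.mem_top y
        exact this
      exact haa (eq_of_subset_of_card_le h4 (by rw [cQ ha1 ha2, cQ ha1' ha2'])).symm
    have hp2 : K h a' a ≠ ⊤ := by
      intro e
      have h4 : Qs S a' ⊆ Qs S a := by
        intro t ht
        obtain ⟨y, rfl⟩ := mem_Qs.1 ht
        have : y ∈ K h a' a := by rw [e]; exact Subgroup.mem_top y
        exact this
      exact haa (eq_of_subset_of_card_le h4 (by rw [cQ ha1 ha2, cQ ha1' ha2']))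
    have hq := quarter h hp1 hp2
    have hd : (univ.filter (fun b => Qs S b = Qs S a)).card +
        (univ.filter (fun b => Qs S b = Qs S a')).card +
        (univ.filter (fun x : S.G => x ∉ K h a a' ∧ x ∉ K h a' a)).card ≤
        Fintype.card S.G := by
      have d1 : Disjoint (univ.filter (fun b => Qs S b = Qs S a))
          (univ.filter (fun b => Qs S b = Qs S a')) := by
        rw [disjoint_left]
        intro b hb hb'
        exact haa ((mem_filter.1 hb').2.symm.trans (mem_filter.1 hb).2)
      have d2 : Disjoint ((univ.filter (fun b => Qs S b = Qs S a)) ∪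
          (univ.filter (fun b => Qs S b = Qs S a')))
          (univ.filter (fun x : S.G => x ∉ K h a a' ∧ x ∉ K h a' a)) := by
        rw [disjoint_left]
        intro b hb hb'
        rw [mem_union, mem_filter, mem_filter] at hb
        rw [mem_filter] at hb'
        rcases hb with ⟨_, hb⟩ | ⟨_, hb⟩
        · apply hb'.2.2
          rw [mem_K, ← hb, mem_Qs]
          exact ⟨a', h.qs2 _ _⟩
        · apply hb'.2.1
          rw [mem_K, ← hb, mem_Qs]
          exact ⟨a, h.qs2 _ _⟩
      rw [← card_union_of_disjoint d1, ← card_union_of_disjoint d2]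
      exact card_le_univ _
    have k1 := hcls ha1 ha2
    have k2 := hcls ha1' ha2'
    omega

end

end Pool.Agent.H836.HM
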