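import Mathlib
import Pool.Agent.H836.HM.PropA

set_option autoImplicit false
set_option linter.unusedSectionVars false

/-!
# A positive proportion of exceptional elements: the end of the case of large index
-/

namespace Pool.Agent.H836.HM

open Finset
open Pool.Agent.H315R3.ETC Pool.Agent.TH673.VG Pool.Agent.Q6.EV Pool.Agent.H836.HC

open Classical

noncomputable section

variable {S : QData} (h : IsQuat S) [Fintype S.G] {v : ℕ}
  (hle : ∀ a : S.G, a ≠ 1 → (V S a).card ≤ v) {E : Finset S.G}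
  (hE : ∀ a : S.G, a ≠ 1 → a ∉ E → (V S a).card = v)

/-- the final inequality -/
theorem arith {v m k e : ℤ} (hv : 8 ≤ v) (hm : 1 ≤ m) (hk : k = e ∧ 9 ≤ e ∧ k ≤ 3 * m ∨ k = 3 * m)
    (he0 : 0 ≤ e) (he : 16 * e ≤ 2 * m * (v * v)) {s : ℤ}
    (h1 : k * ((v - 1) * (4 * (2 * m * (v * v)) - 9 * (e + 1) - v * v)) ≤
      4 * s + k * (k - 1) * ((v - 1) * (v * v)))
    (h2 : s * (v * (v - 1)) ≤ 2 * m * (v * v) * ((v - 1) * (v - 2) ^ 2 + 2 * v * e)) : False := by
  obtain ⟨G, hG⟩ : ∃ G, G = 2 * m * (v * v) := ⟨_, rfl⟩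
  rw [← hG] at h1 h2 he
  have hv2 : 64 ≤ v * v := by nlinarith
  have hG128 : 128 ≤ G := by rw [hG]; nlinarith
  have hk3 : k ≤ 3 * m := by rcases hk with ⟨_, _, e3⟩ | e3 <;> linarith
  have hk0 : 0 ≤ k := by
    rcases hk with ⟨e1, e2, _⟩ | e3
    · linarith
    · linarith
  have hkv : 2 * (k * (v * v)) ≤ 3 * G := by
    rw [hG]
    have : k * (v * v) ≤ 3 * m * (v * v) := mul_le_mul_of_nonneg_right hk3 (by linarith)
    linarith
  -- `5 * (4 G - 9 (e + 1) - k v^2) ≥ 9 G`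
  have h3 : 9 * G ≤ 5 * (4 * G - 9 * (e + 1) - k * (v * v)) := by linarith
  have h4 : (k * (v - 1)) * (9 * G) ≤ (k * (v - 1)) * (5 * (4 * G - 9 * (e + 1) - k * (v * v))) :=
    mul_le_mul_of_nonneg_left h3 (mul_nonneg hk0 (by linarith))
  have h5 : (k * (v - 1)) * (9 * G) ≤ 20 * s := by
    have : (k * (v - 1)) * (5 * (4 * G - 9 * (e + 1) - k * (v * v))) =
      5 * (k * ((v - 1) * (4 * G - 9 * (e + 1) - v * v)) - k * (k - 1) * ((v - 1) * (v * v))) := by
      ring
    rw [this] at h4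
    linarith
  have h6 : ((k * (v - 1)) * (9 * G)) * (v * (v - 1)) ≤ (20 * s) * (v * (v - 1)) :=
    mul_le_mul_of_nonneg_right h5 (mul_nonneg (by linarith) (by linarith))
  have h7 : G * (9 * k * v * (v - 1) ^ 2) ≤ G * (20 * (v - 1) * (v - 2) ^ 2 + 40 * v * e) := by
    have e1 : ((k * (v - 1)) * (9 * G)) * (v * (v - 1)) = G * (9 * k * v * (v - 1) ^ 2) := by ring
    rw [e1] at h6
    linarith
  have h8 := le_of_mul_le_mul_left h7 (by linarith : 0 < G)
  rcases hk with ⟨e1, e2, _⟩ | e3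
  · -- `k = e`
    rw [e1] at h8
    -- `20 (v-1) (v-2)^2 ≤ 20 v (v-1)^2`
    have n1 : (v - 2) ^ 2 ≤ v * (v - 1) := by nlinarith
    have n2 : 20 * (v - 1) * (v - 2) ^ 2 ≤ 20 * (v - 1) * (v * (v - 1)) :=
      mul_le_mul_of_nonneg_left n1 (by linarith)
    have n3 : v * (9 * e * (v - 1) ^ 2) ≤ v * (20 * (v - 1) ^ 2 + 40 * e) := by linarith
    have n4 := le_of_mul_le_mul_left n3 (by linarith)
    have n5 : 49 ≤ (v - 1) ^ 2 := by nlinarith
    have n6 : 49 * e ≤ (v - 1) ^ 2 * e := mul_le_mul_of_nonneg_right n5 he0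
    have n7 : 9 * (v - 1) ^ 2 ≤ e * (v - 1) ^ 2 := mul_le_mul_of_nonneg_right e2 (by positivity)
    nlinarith
  · -- `k = 3 m`
    rw [e3] at h8
    have n1 : 40 * v * e ≤ 5 * m * v ^ 3 := by
      have : (v * (16 * e)) ≤ v * G := mul_le_mul_of_nonneg_left he (by linarith)
      rw [hG] at this
      nlinarith
    have n0 : 0 ≤ (v - 1) * (v - 2) ^ 2 := mul_nonneg (by linarith) (sq_nonneg _)
    have n2 : 20 * (v - 1) * (v - 2) ^ 2 ≤ m * (20 * (v - 1) * (v - 2) ^ 2) := by nlinarith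
    have n3 : m * (27 * v * (v - 1) ^ 2) ≤ m * (20 * (v - 1) * (v - 2) ^ 2 + 5 * v ^ 3) := by
      linarith
    have n4 := le_of_mul_le_mul_left n3 (by linarith)
    have n5 : 27 * v * (v - 1) ^ 2 - (20 * (v - 1) * (v - 2) ^ 2 + 5 * v ^ 3) =
        2 * v ^ 3 + v * (46 * v - 133) + 80 := by ring
    have n6 : 0 ≤ v * (46 * v - 133) := mul_nonneg (by linarith) (by linarith)
    have n7 : 0 ≤ v ^ 3 := by positivity
    linarith

include h hle hE in
/-- if the index is at least twice the order, there are few exceptions -/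
theorem propA (hw : ∀ c ∈ E, 2 * (V S c).card ≤ v) (hv : 8 ≤ v) (h1E : (1 : S.G) ∉ E)
    {N m : ℕ} (hNv : N * v = Fintype.card S.G) (hm : 1 ≤ m) (hN : N = 2 * m * v)
    (hEG : 16 * E.card ≤ Fintype.card S.G) : E.card ≤ v := by
  by_contra hcon
  push Not at hcon
  obtain ⟨k, hk⟩ : ∃ k, k = min E.card (3 * m) := ⟨_, rfl⟩
  obtain ⟨F, hF, hFk⟩ := exists_subset_card_eq (show k ≤ E.card by omega)
  have h1 := many h hle hE hw (by omega) h1E F hF
  have hI : ((insert 1 E)ᶜ).card ≤ Fintype.card S.G := card_le_univ _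
  have h2 : (∑ a ∈ (insert 1 E)ᶜ, ((U S F a).card : ℤ)) * (v * (v - 1)) ≤
      Fintype.card S.G * (((v : ℤ) - 1) * (v - 2) ^ 2 + 2 * v * E.card) := by
    rw [sum_mul]
    have e1 : ∑ a ∈ (insert 1 E)ᶜ, ((U S F a).card : ℤ) * (v * (v - 1)) ≤
        ∑ a ∈ (insert 1 E)ᶜ, (((v : ℤ) - 1) * (v - 2) ^ 2 + 2 * v * E.card) := by
      refine sum_le_sum fun a ha => ?_
      rw [mem_compl, mem_insert] at ha
      push Not at ha
      exact star h hle hE hw (by omega) hNv hF ha.1 ha.2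
    refine e1.trans ?_
    rw [sum_const, nsmul_eq_mul]
    refine mul_le_mul_of_nonneg_right (by exact_mod_cast hI) ?_
    have : (8 : ℤ) ≤ v := by exact_mod_cast hv
    have : (0 : ℤ) ≤ (v - 1) * (v - 2) ^ 2 := mul_nonneg (by linarith) (sq_nonneg _)
    positivity
  have hG : (Fintype.card S.G : ℤ) = 2 * m * (v * v) := by
    rw [← hNv, hN]; push_cast; ring
  have hEz : 16 * (E.card : ℤ) ≤ Fintype.card S.G := by exact_mod_cast hEG
  rw [hG] at h1 h2 hEz
  rw [hFk] at h1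
  refine arith (v := v) (m := m) (k := k) (e := E.card) (by exact_mod_cast hv)
    (by exact_mod_cast hm) ?_ (by positivity) hEz h1 h2
  rcases le_total E.card (3 * m) with e | e
  · left
    have : k = E.card := by rw [hk, min_eq_left e]
    refine ⟨by exact_mod_cast this, by exact_mod_cast (by omega : 9 ≤ E.card), ?_⟩
    rw [this]
    exact_mod_cast e
  · right
    have : k = 3 * m := by rw [hk, min_eq_right e]
    rw [this]
    push_cast
    ring

end

end Pool.Agent.H836.HM
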