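import Mathlib
import Pool.Agent.H836.HM.StepL

set_option autoImplicit false
set_option linter.unusedSectionVars false

/-!
# A positive proportion of exceptional elements: the case of small index
-/

namespace Pool.Agent.H836.HM

open Finset
open Pool.Agent.H315R3.ETC Pool.Agent.TH673.VG Pool.Agent.Q6.EV Pool.Agent.H836.HC

open Classical

noncomputable section

variable {S : QData} (h : IsQuat S) [Fintype S.G] {v : ℕ}
  (hle : ∀ a : S.G, a ≠ 1 → (V S a).card ≤ v) {E : Finset S.G}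
  (hE : ∀ a : S.G, a ≠ 1 → a ∉ E → (V S a).card = v)

include h hle hE in
/-- if the index is at most a quarter of the order, there are no exceptions -/
theorem propL {N : ℕ} (hw : ∀ c ∈ E, 2 * (V S c).card ≤ v)
    (hNv : N * v = Fintype.card S.G) (hN2 : 2 ≤ N) (h4N : 4 * N ≤ v)
    (hEG : 16 * E.card ≤ Fintype.card S.G) : E = ∅ := by
  by_contra hne
  obtain ⟨c, hc⟩ := nonempty_iff_ne_empty.2 hne
  have hv0 : 0 < v := by omega
  have hsr := sum_r_le h hle c
  have hwc := hw c hc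
  have hlow : ∀ b ∈ (univ : Finset S.G), v ≤ N * (V S c ∩ V S b).card +
      ((if b ∈ insert 1 E then v else 0) + if c * b ∈ insert 1 E then v else 0) := by
    intro b _
    by_cases c1 : b ∈ insert 1 E
    · rw [if_pos c1]; omega
    by_cases c2 : c * b ∈ insert 1 E
    · rw [if_pos c2]; omega
    rw [if_neg c1, if_neg c2]
    rw [mem_insert] at c1 c2
    push Not at c1 c2
    have e1 : (Qs S c ∩ Qs S b).card * (V S c ∩ V S b).card = v := by
      rw [card_QQ h]
      exact hE _ c2.1 c2.2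
    have e2 : (Qs S b).card = N := by
      have := card_Qs h b
      rw [hE b c1.1 c1.2, ← hNv] at this
      exact Nat.eq_of_mul_eq_mul_right hv0 this
    have e3 : (Qs S c ∩ Qs S b).card ≤ N := by
      rw [← e2]
      exact card_le_card inter_subset_right
    calc v = (Qs S c ∩ Qs S b).card * (V S c ∩ V S b).card := e1.symm
      _ ≤ N * (V S c ∩ V S b).card := Nat.mul_le_mul_right _ e3
      _ ≤ _ := Nat.le_add_right _ _
  have hlow2 := sum_le_sum hlow
  rw [sum_const, smul_eq_mul, sum_add_distrib, sum_add_distrib, ← mul_sum, ← sum_filter,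
    ← sum_filter, sum_const, sum_const, smul_eq_mul, smul_eq_mul, card_univ, ← hNv] at hlow2
  have hE1 : (univ.filter (fun b : S.G => b ∈ insert 1 E)).card ≤ E.card + 1 :=
    (card_le_card fun b hb => (mem_filter.1 hb).2).trans (card_insert_le _ _)
  have hE2 : (univ.filter (fun b : S.G => c * b ∈ insert 1 E)).card ≤ E.card + 1 := by
    refine (card_le_card_of_injOn (t := insert 1 E) (fun b => c * b) (fun b hb => ?_)
      (fun x _ y _ e => mul_left_cancel e)).trans (card_insert_le _ _)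
    exact (mem_filter.1 hb).2
  obtain ⟨R, hR⟩ : ∃ R, R = ∑ b, (V S c ∩ V S b).card := ⟨_, rfl⟩
  obtain ⟨e1, he1⟩ : ∃ e1, e1 = (univ.filter (fun b : S.G => b ∈ insert 1 E)).card := ⟨_, rfl⟩
  obtain ⟨e2, he2⟩ : ∃ e2, e2 = (univ.filter (fun b : S.G => c * b ∈ insert 1 E)).card :=
    ⟨_, rfl⟩
  obtain ⟨e, he⟩ : ∃ e, e = E.card := ⟨_, rfl⟩
  obtain ⟨w, hw⟩ : ∃ w, w = (V S c).card := ⟨_, rfl⟩
  rw [← hR] at hsr hlow2
  rw [← he1] at hlow2 hE1
  rw [← he2] at hlow2 hE2
  rw [← he] at hE1 hE2 hEG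
  rw [← hw] at hwc hsr
  rw [← hNv] at hsr hEG
  have z1 : 2 * (R : ℤ) + 2 * v ≤ 2 * (N * v) + v * v := by
    have n1 : (2 * w) * v ≤ v * v := Nat.mul_le_mul_right _ hwc
    have n2 : ((2 * R + 2 * v : ℕ) : ℤ) ≤ ((2 * (N * v) + v * v : ℕ) : ℤ) := by
      have n3 : (2 * w) * v = 2 * (w * v) := by ring
      exact_mod_cast (by omega : 2 * R + 2 * v ≤ 2 * (N * v) + v * v)
    push_cast at n2
    exact n2
  have z2 : (N : ℤ) * v * v ≤ N * R + (e1 * v + e2 * v) := by exact_mod_cast hlow2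
  have z3 : (e1 : ℤ) ≤ e + 1 := by exact_mod_cast hE1
  have z4 : (e2 : ℤ) ≤ e + 1 := by exact_mod_cast hE2
  have z5 : 16 * (e : ℤ) ≤ N * v := by exact_mod_cast hEG
  have z6 : 4 * (N : ℤ) ≤ v := by exact_mod_cast h4N
  have z7 : (2 : ℤ) ≤ N := by exact_mod_cast hN2
  have z8 : (0 : ℤ) < v := by exact_mod_cast hv0
  -- everything is divisible by `v`
  have y1 : (N : ℤ) * (2 * R) ≤ N * (2 * (N * v) + v * v - 2 * v) :=
    mul_le_mul_of_nonneg_left (by linarith) (by linarith)
  have y2 : (e1 : ℤ) * v ≤ (e + 1) * v := mul_le_mul_of_nonneg_right z3 z8.le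
  have y3 : (e2 : ℤ) * v ≤ (e + 1) * v := mul_le_mul_of_nonneg_right z4 z8.le
  have y4 : v * (2 * (N : ℤ) * v) ≤ v * (2 * N * N + N * v - 2 * N + 4 * (e + 1)) := by
    linarith
  have y5 := le_of_mul_le_mul_left y4 z8
  have y6 : (N : ℤ) * (4 * N) ≤ N * v := mul_le_mul_of_nonneg_left z6 (by linarith)
  have y7 : (2 : ℤ) * 8 ≤ N * v := mul_le_mul z7 (by linarith) (by norm_num) (by linarith)
  linarith

end

end Pool.Agent.H836.HM
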