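import Mathlib
import Pool.Agent.H836.HM.PropB
import Pool.Agent.H836.HM.PropL
import Pool.Agent.H836.HM.MidA16
import Pool.Agent.H836.HM.MidL16
import Pool.Agent.H836.HM.Final

set_option autoImplicit false
set_option linter.unusedSectionVars false

/-!
# A positive proportion of exceptional elements: the theorem
-/

namespace Pool.Agent.H836.HM

open Finset
open Pool.Agent.H315R3.ETC Pool.Agent.TH673.VG Pool.Agent.Q6.EV Pool.Agent.H836.HC

open Classical

noncomputable section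

/-- **The counting theorem**: if the maximal order `v` of the value groups is at least five, there
are no exceptions or more than `|G| / 16` of them. -/
theorem empty16 {S : QData} (h : IsQuat S) [Fintype S.G] {v : ℕ}
    (hred : ∀ a : S.G, a ≠ 1 → (V S a).card < Fintype.card S.G)
    (hle : ∀ a : S.G, a ≠ 1 → (V S a).card ≤ v) {E : Finset S.G}
    (hE : ∀ a : S.G, a ≠ 1 → a ∉ E → (V S a).card = v)
    (hEx : ∀ c ∈ E, c ≠ 1 ∧ (V S c).card ≠ v) (hEG : 16 * E.card ≤ Fintype.card S.G)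
    (hv5 : 5 ≤ v) : E = ∅ := by
  by_contra hne
  obtain ⟨c, hc⟩ := nonempty_iff_ne_empty.2 hne
  have hE1 : 1 ≤ E.card := card_pos.2 ⟨c, hc⟩
  have h1E : (1 : S.G) ∉ E := fun e => (hEx 1 e).1 rfl
  obtain ⟨n, hn⟩ := card_pow h
  -- an element outside `E`
  obtain ⟨a, ha1, ha2⟩ : ∃ a : S.G, a ≠ 1 ∧ a ∉ E := by
    by_contra hcon
    push Not at hcon
    have hsub : (univ : Finset S.G) ⊆ insert 1 E := by
      intro a _
      rw [mem_insert]
      by_cases e1 : a = 1
      · exact Or.inl e1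
      · exact Or.inr (hcon a e1)
    have e1 := card_le_card hsub
    have e2 := card_insert_le (1 : S.G) E
    rw [card_univ] at e1
    omega
  have hva := hE a ha1 ha2
  have hvG : v < Fintype.card S.G := hva ▸ hred a ha1
  have hpow : ∀ {u : ℕ}, u ∣ Fintype.card S.G → ∃ j, u = 2 ^ j := by
    intro u hu
    rw [hn] at hu
    obtain ⟨j, _, hj⟩ := (Nat.dvd_prime_pow Nat.prime_two).1 hu
    exact ⟨j, hj⟩
  obtain ⟨k, hk⟩ := hpow (hva ▸ V_dvd h a)
  obtain ⟨N, hN⟩ : ∃ N, N = (Qs S a).card := ⟨_, rfl⟩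
  have hNv : N * v = Fintype.card S.G := by rw [hN, ← hva, card_Qs h]
  obtain ⟨l, hl⟩ := hpow (Dvd.intro _ hNv)
  have hN2 : 2 ≤ N := by
    by_contra hcon
    have : N * v ≤ 1 * v := Nat.mul_le_mul_right _ (by omega)
    omega
  have hk3 : 3 ≤ k := by
    by_contra hcon
    rcases (by omega : k = 0 ∨ k = 1 ∨ k = 2) with e | e | e <;> rw [e] at hk <;> omega
  have hv8 : 8 ≤ v := by
    rw [hk]
    calc 8 = 2 ^ 3 := by norm_num
      _ ≤ 2 ^ k := Nat.pow_le_pow_right (by norm_num) hk3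
  have hw : ∀ d ∈ E, 2 * (V S d).card ≤ v := by
    intro d hd
    obtain ⟨j, hj⟩ := hpow (V_dvd h d)
    have hlt : (V S d).card < v := lt_of_le_of_ne (hle d (hEx d hd).1) (hEx d hd).2
    rw [hj, hk] at hlt
    have : j < k := (Nat.pow_lt_pow_iff_right (by norm_num)).1 hlt
    rw [hj, hk]
    calc 2 * 2 ^ j = 2 ^ (j + 1) := by rw [pow_succ]; ring
      _ ≤ 2 ^ k := Nat.pow_le_pow_right (by norm_num) this
  rcases lt_trichotomy l k with hlk | hlk | hlk
  · rcases (by omega : l + 2 ≤ k ∨ k = l + 1) with e | e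
    · -- `4 N ≤ v`
      have h4N : 4 * N ≤ v := by
        rw [hl, hk]
        calc 4 * 2 ^ l = 2 ^ (l + 2) := by rw [pow_add]; ring
          _ ≤ 2 ^ k := Nat.pow_le_pow_right (by norm_num) e
      exact hne (propL h hle hE hw hNv hN2 h4N (by omega))
    · -- `2 N = v`
      have h2N : v = 2 * N := by rw [hk, hl, e, pow_succ]; ring
      exact hne (midL16 h hle hE hk hl hw hNv (by omega) h2N hEG)
  · -- `N = v`
    have hNN : N = v := by rw [hl, hk, hlk]
    have hG : v * v = Fintype.card S.G := by rw [← hNv, hNN]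
    have hw2 : ∀ d ∈ E, 2 * (V S d).card = v := by
      intro d hd
      have f1 := not_quarter h hle hE hw hv8 hG hEG hd
      have f2 := hw d hd
      obtain ⟨j, hj⟩ := hpow (V_dvd h d)
      rw [hj, hk] at f1 f2
      have f3 : k < j + 2 := by
        refine (Nat.pow_lt_pow_iff_right (by norm_num : 1 < 2)).1 ?_
        calc 2 ^ k < 4 * 2 ^ j := f1
          _ = 2 ^ (j + 2) := by rw [pow_add]; ring
      have f4 : j + 1 ≤ k := by
        refine (Nat.pow_le_pow_iff_right (by norm_num : 1 < 2)).1 ?_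
        calc 2 ^ (j + 1) = 2 * 2 ^ j := by rw [pow_succ]; ring
          _ ≤ 2 ^ k := f2
      have f5 : k = j + 1 := by omega
      rw [hj, hk, f5, pow_succ]
      ring
    exact stepA h hle hE (hw c hc) hv8 (midA16 h hle hE hw2 hv8 hG hEG) hNv hNN.ge
  · -- `N ≥ 2 v`
    have hNN : N = 2 * 2 ^ (l - k - 1) * v := by
      rw [hl, hk, show 2 * 2 ^ (l - k - 1) = 2 ^ (l - k - 1 + 1) by rw [pow_succ]; ring,
        ← pow_add]
      congr 1
      omega
    have hm : 1 ≤ 2 ^ (l - k - 1) := Nat.one_le_two_pow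
    have h1 := propA h hle hE hw hv8 h1E hNv hm hNN (by omega)
    refine stepA h hle hE (hw c hc) hv8 h1 hNv ?_
    rw [hl, hk]
    exact Nat.pow_le_pow_right (by norm_num) hlk.le

theorem elem16 {S : QData} (h : IsQuat S) [Fintype S.G] {v : ℕ}
    (hred : ∀ a : S.G, a ≠ 1 → (V S a).card < Fintype.card S.G)
    (hle : ∀ a : S.G, a ≠ 1 → (V S a).card ≤ v) {E : Finset S.G}
    (hE : ∀ a : S.G, a ≠ 1 → a ∉ E → (V S a).card = v)
    (hEx : ∀ c ∈ E, c ≠ 1 ∧ (V S c).card ≠ v) (hEG : 16 * E.card ≤ Fintype.card S.G) :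
    Elem S ∧ (v ≤ 4 ∨ ∀ a : S.G, Fintype.card S.G ≤ 2 * (V S a).card) := by
  rcases Nat.lt_or_ge v 5 with h1 | h1
  · refine ⟨?_, Or.inl (by omega)⟩
    refine Pool.Agent.K3h83.ET.elem_one _ S h inferInstance le_rfl 1 fun a ha _ _ => ?_
    have e1 : Pool.Agent.Y920.ETC.vs S a = (V S a).card := ncard_V a
    rw [e1]
    exact (hle a ha).trans (by omega)
  · have hall : ∀ a : S.G, a ≠ 1 → (V S a).card = v := by
      intro a ha
      refine hE a ha ?_
      rw [empty16 h hred hle hE hEx hEG h1]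
      exact notMem_empty _
    have h2 : Fintype.card S.G ≤ 2 * v := by
      rcases Pool.Agent.Q6.EV.small_or_large h hall with e | e
      · omega
      · exact e
    refine ⟨elem_of_indexTwo h (c := 1) fun a ha _ => indexTwo_of h ?_, Or.inr fun a => ?_⟩
    · rw [hall a ha]
      exact h2
    · by_cases ha : a = 1
      · rw [ha, V_one h, card_univ]
        omega
      · rw [hall a ha]
        exact h2

/-- **Main theorem** -/
theorem main16 {S : QData} (h : IsQuat S) (hfin : Finite S.G) (a₀ : S.G)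
    (hmax : ∀ a : S.G, (∃ x, S.q a x ≠ S.zero) →
      {x : S.G | S.q a x = S.zero}.ncard ≤ {x : S.G | S.q a₀ x = S.zero}.ncard)
    (hX : 16 * {a : S.G | (∃ x, S.q a x ≠ S.zero) ∧ {x : S.G | S.q a x = S.zero}.ncard ≠
      {x : S.G | S.q a₀ x = S.zero}.ncard}.ncard ≤ Nat.card S.G) :
    Elem S ∧
      ({x : S.G | S.q a₀ x = S.zero}.ncard ≤ 4 * {r : S.G | ∀ x, S.q r x = S.zero}.ncard ∨
      ∀ a : S.G, Nat.card S.G ≤ 2 * {x : S.G | S.q a x = S.zero}.ncard) := by
  have : Fintype S.G := Fintype.ofFinite _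
  have hfq : Finite (Quo h).G := Finite.of_surjective _ (pi_surj h)
  have : Fintype (Quo h).G := Fintype.ofFinite _
  have hQ := quo_isQuat h
  have hR : ∀ a : S.G, pi h a ≠ 1 ↔ ∃ x, S.q a x ≠ S.zero := by
    intro a
    rw [Ne, pi_one, mem_Rad]
    push Not
    exact Iff.rfl
  obtain ⟨r, hr⟩ : ∃ r, r = Nat.card (Rad h) := ⟨_, rfl⟩
  have hr0 : 0 < r := by rw [hr]; exact Nat.card_pos
  obtain ⟨v, hv⟩ : ∃ v, v = (V (Quo h) (pi h a₀)).card := ⟨_, rfl⟩
  have e1 : {r : S.G | ∀ x, S.q r x = S.zero}.ncard = r := by rw [hr]; rfl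
  have e3 : Nat.card S.G = Fintype.card (Quo h).G * r := by
    rw [hr, ← Nat.card_eq_fintype_card]
    exact Subgroup.card_eq_card_quotient_mul_card_subgroup (Rad h)
  have e5 : ∀ a : S.G, {x : S.G | S.q a x = S.zero}.ncard = (V (Quo h) (pi h a)).card * r := by
    intro a
    rw [ncard_V, card_quo h a, hr]
  set E : Finset (Quo h).G := univ.filter (fun y => y ≠ 1 ∧ (V (Quo h) y).card ≠ v) with hEdef
  have hXE : {a : S.G | (∃ x, S.q a x ≠ S.zero) ∧ {x : S.G | S.q a x = S.zero}.ncard ≠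
      {x : S.G | S.q a₀ x = S.zero}.ncard}.ncard =
      (univ.filter (fun a : S.G => pi h a ∈ E)).card := by
    rw [← Set.ncard_coe_finset]
    congr 1
    ext a
    rw [Set.mem_ofPred_eq, mem_coe, mem_filter, hEdef, mem_filter, e5, e5, ← hv, ← hR]
    have : (V (Quo h) (pi h a)).card * r ≠ v * r ↔ (V (Quo h) (pi h a)).card ≠ v :=
      not_congr ⟨fun e => Nat.eq_of_mul_eq_mul_right hr0 e, fun e => by rw [e]⟩
    rw [this]
    simp only [mem_univ, true_and]
  have hpre := card_preimage h E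
  rw [← hr] at hpre
  rw [hXE, e3] at hX
  have hEG : 16 * E.card ≤ Fintype.card (Quo h).G := by
    refine Nat.le_of_mul_le_mul_right ?_ hr0
    calc 16 * E.card * r = 16 * (r * E.card) := by ring
      _ ≤ 16 * (univ.filter (fun a : S.G => pi h a ∈ E)).card := Nat.mul_le_mul_left _ hpre
      _ ≤ _ := hX
  have hle : ∀ y : (Quo h).G, y ≠ 1 → (V (Quo h) y).card ≤ v := by
    intro y hy
    obtain ⟨a, rfl⟩ := pi_surj h y
    have := hmax a ((hR a).1 hy)
    rw [e5, e5, ← hv] at this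
    exact Nat.le_of_mul_le_mul_right this hr0
  have hred : ∀ y : (Quo h).G, y ≠ 1 → (V (Quo h) y).card < Fintype.card (Quo h).G := by
    intro y hy
    obtain ⟨a, rfl⟩ := pi_surj h y
    obtain ⟨x, hx⟩ := (hR a).1 hy
    have n1 : {x : S.G | S.q a x = S.zero}.ncard < Nat.card S.G := by
      rw [← Set.ncard_univ]
      refine Set.ncard_lt_ncard ⟨Set.subset_univ _, fun hs => hx ?_⟩ Set.finite_univ
      exact hs (Set.mem_univ x)
    rw [e5, e3] at n1
    exact Nat.lt_of_mul_lt_mul_right n1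
  have hE : ∀ y : (Quo h).G, y ≠ 1 → y ∉ E → (V (Quo h) y).card = v := by
    intro y hy1 hy2
    by_contra hc
    exact hy2 (mem_filter.2 ⟨mem_univ _, hy1, hc⟩)
  have hEx : ∀ c ∈ E, c ≠ 1 ∧ (V (Quo h) c).card ≠ v := fun c hc => (mem_filter.1 hc).2
  obtain ⟨h1, h2⟩ := elem16 hQ hred hle hE hEx hEG
  refine ⟨elem_of_quo h h1, ?_⟩
  rcases h2 with h2 | h2
  · left
    rw [e1, e5, ← hv]
    exact Nat.mul_le_mul_right _ h2
  · right
    intro a
    rw [e3, e5, ← mul_assoc]
    exact Nat.mul_le_mul_right _ (h2 _)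

end

end Pool.Agent.H836.HM
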