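import Mathlib
import Pool.Agent.H836.HC.Field
import Pool.Agent.H836.HM.Final32

set_option autoImplicit false
set_option linter.unusedSectionVars false

/-!
# Fields most of whose quadratic extensions have the maximal number of square classes
-/

namespace Pool.Agent.H836.HM

open Pool.Agent.H315R3.ETC Pool.Agent.TH188.ET Pool.Agent.TH673.VG
open Pool.Agent.H836.HC

universe u

theorem field_main32 {F : Type u} [Field F] (h2 : (2 : F) ≠ 0) (hfin : FinSq F) (T : Finset Fˣ)
    (hT : 32 * T.card ≤ sqClasses F) {m : ℕ}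
    (hm : ∀ a : Fˣ, normGroup a ≠ ⊤ → (∀ t ∈ T, ¬ IsSquare (t * a)) →
      ∀ (K : Type u) [Field K] [Algebra F K], Module.finrank F K = 2 →
        IsSquare (algebraMap F K a) → sqClasses K = m)
    (hle : ∀ t ∈ T, normGroup t ≠ ⊤ →
      ∀ (K : Type u) [Field K] [Algebra F K], Module.finrank F K = 2 →
        IsSquare (algebraMap F K t) → sqClasses K ≤ m) :
    (∃ S : QData, Elem S ∧ IsStructureOf F S) ∧
    ((∃ a : Fˣ, normGroup a ≠ ⊤) →
      m ≤ 2 * sqClasses F * (sqs F).relIndex (⨅ b : Fˣ, normGroup b) ∨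
      ∀ a : Fˣ, (normGroup a).index ≤ 2) := by
  classical
  obtain ⟨S, hS, hSfin, hSq, -, -⟩ := field_core h2 hfin
  obtain ⟨φ, hs, hk, hn, h0, hq⟩ := id hS
  have hz : ∀ a b : Fˣ, S.q (φ a) (φ b) = S.zero ↔ NormFrom a b := by
    intro a b
    rw [← qiso_one h2, ← h0, ← map_one φ]
    exact hq a b 1 1
  have hcomap : ∀ a : Fˣ, (D hSq (φ a)).comap φ = normGroup a := by
    intro a
    ext x
    rw [Subgroup.mem_comap]
    exact hz a x
  have hker : φ.ker = sqs F := by
    ext x
    rw [MonoidHom.mem_ker, hk, mem_sqs]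
  have hG : Nat.card S.G = sqClasses F := by
    rw [sqClasses, ← hker, Subgroup.index_ker, MonoidHom.range_eq_top.2 hs, Subgroup.card_top]
  have hV : ∀ a : Fˣ, {x : S.G | S.q (φ a) x = S.zero}.ncard =
      (sqs F).relIndex (normGroup a) := by
    intro a
    rw [← hker, Subgroup.relIndex_ker, ← hcomap a, Subgroup.map_comap_eq_self_of_surjective hs]
    rfl
  have htop : ∀ a : Fˣ, normGroup a ≠ ⊤ ↔ ∃ x, S.q (φ a) x ≠ S.zero := by
    intro a
    constructor
    · intro h
      by_contra hc
      push Not at hc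
      apply h
      rw [eq_top_iff]
      intro x _
      exact (hz a x).1 (hc (φ x))
    · rintro ⟨x, hx⟩ h
      obtain ⟨y, rfl⟩ := hs x
      apply hx
      rw [hz]
      have : y ∈ normGroup a := by rw [h]; exact Subgroup.mem_top y
      exact this
  have hq0 : 0 < sqClasses F := by
    rw [← hG]
    have : Nonempty S.G := ⟨1⟩
    exact Nat.card_pos
  -- the number of square classes of `F(√a)`
  have hns : ∀ a : Fˣ, normGroup a ≠ ⊤ → ∀ r : F, r ^ 2 ≠ (a : F) := by
    intro a h3 r hr
    apply h3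
    rw [eq_top_iff]
    intro d _
    have hr0 : r ≠ 0 := by
      rintro rfl
      exact a.ne_zero (by rw [← hr]; ring)
    refine ⟨((d : F) + 1) / 2, ((d : F) - 1) / (2 * r), ?_⟩
    rw [← hr]
    field_simp
    ring
  have hcl : ∀ a : Fˣ, normGroup a ≠ ⊤ → (∀ t ∈ T, ¬ IsSquare (t * a)) →
      2 * m = sqClasses F * (sqs F).relIndex (normGroup a) := by
    intro a h3 h4
    have : Fact (∀ r : F, r ^ 2 ≠ (a : F) + 0 * r) := ⟨fun r => by
      rw [zero_mul, add_zero]
      exact hns a h3 r⟩
    have e1 : Module.finrank F (QE a) = 2 := QuadraticAlgebra.finrank_eq_two _ _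
    have e2 : IsSquare (algebraMap F (QE a) a) :=
      ⟨QuadraticAlgebra.omega, by rw [QuadraticAlgebra.omega_mul_omega_eq_mk]; rfl⟩
    rw [← sqClasses_quadratic h2 h3 (QE a) e1 e2, hm a h3 h4 (QE a) e1 e2]
  have hcl' : ∀ t ∈ T, normGroup t ≠ ⊤ →
      sqClasses F * (sqs F).relIndex (normGroup t) ≤ 2 * m := by
    intro a ha h3
    have : Fact (∀ r : F, r ^ 2 ≠ (a : F) + 0 * r) := ⟨fun r => by
      rw [zero_mul, add_zero]
      exact hns a h3 r⟩
    have e1 : Module.finrank F (QE a) = 2 := QuadraticAlgebra.finrank_eq_two _ _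
    have e2 : IsSquare (algebraMap F (QE a) a) :=
      ⟨QuadraticAlgebra.omega, by rw [QuadraticAlgebra.omega_mul_omega_eq_mk]; rfl⟩
    rw [← sqClasses_quadratic h2 h3 (QE a) e1 e2]
    exact Nat.mul_le_mul_left _ (hle a ha h3 (QE a) e1 e2)
  -- the classes of `T`
  have hTφ : ∀ {a t : Fˣ}, IsSquare (t * a) → φ t = φ a := by
    intro a t hsq
    obtain ⟨b, hb⟩ := hsq
    have e1 : φ (t * a) = 1 := (hk (t * a)).2 ⟨b, by rw [hb, pow_two]⟩
    rw [map_mul] at e1
    calc φ t = φ t * (φ a * φ a) := by rw [hSq.exp2, mul_one]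
      _ = (φ t * φ a) * φ a := by rw [mul_assoc]
      _ = φ a := by rw [e1, one_mul]
  have hXle : ∀ X : Set S.G, (∀ a : Fˣ, φ a ∈ X → ∃ t ∈ T, IsSquare (t * a)) →
      32 * X.ncard ≤ Nat.card S.G := by
    intro X hX
    have hsub : X ⊆ ((T.image φ : Finset S.G) : Set S.G) := by
      intro y hy
      obtain ⟨a, rfl⟩ := hs y
      obtain ⟨t, ht, hta⟩ := hX a hy
      rw [Finset.mem_coe, Finset.mem_image]
      exact ⟨t, ht, hTφ hta⟩
    have e1 := Set.ncard_le_ncard hsub (Finset.finite_toSet _)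
    rw [Set.ncard_coe_finset] at e1
    have e2 : (T.image φ).card ≤ T.card := Finset.card_image_le
    rw [hG]
    omega
  by_cases hgood : ∃ a₀ : Fˣ, normGroup a₀ ≠ ⊤ ∧ ∀ t ∈ T, ¬ IsSquare (t * a₀)
  · obtain ⟨a₀, ha₀, ha₀'⟩ := hgood
    have e0 := hcl a₀ ha₀ ha₀'
    have hVa : ∀ a : Fˣ, normGroup a ≠ ⊤ → (∀ t ∈ T, ¬ IsSquare (t * a)) →
        (sqs F).relIndex (normGroup a) = (sqs F).relIndex (normGroup a₀) := by
      intro a h3 h4
      have e1 := hcl a h3 h4
      rw [e0] at e1
      exact (Nat.eq_of_mul_eq_mul_left hq0 e1).symm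
    obtain ⟨h1, h3⟩ := main32 hSq hSfin (φ a₀) (by
      intro y hy
      obtain ⟨a, rfl⟩ := hs y
      rw [← htop] at hy
      rw [hV, hV]
      by_cases hc : ∃ t ∈ T, IsSquare (t * a)
      · obtain ⟨t, ht, hta⟩ := hc
        have e2 := hTφ hta
        have e3 : normGroup t ≠ ⊤ := by
          rw [htop, e2, ← htop]
          exact hy
        have e4 := hcl' t ht e3
        have e5 : (sqs F).relIndex (normGroup a) = (sqs F).relIndex (normGroup t) := by
          rw [← hV, ← hV, e2]
        rw [e5]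
        rw [e0] at e4
        exact Nat.le_of_mul_le_mul_left e4 hq0
      · push Not at hc
        exact (hVa a hy hc).le) (hXle _ (by
      rintro a ⟨h4, h5⟩
      rw [← htop] at h4
      by_contra hc
      push Not at hc
      rw [hV, hV] at h5
      exact h5 (hVa a h4 hc)))
    refine ⟨⟨S, h1, hS⟩, fun _ => ?_⟩
    have hR : (⨅ b : Fˣ, normGroup b) = (Pool.Agent.Q6.EV.Rad hSq).comap φ := by
      ext x
      rw [Subgroup.mem_iInf, Subgroup.mem_comap, Pool.Agent.Q6.EV.mem_Rad]
      constructor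
      · intro h y
        obtain ⟨b, rfl⟩ := hs y
        rw [hSq.qs2]
        exact (hz b x).2 (h b)
      · intro h b
        exact (hz b x).1 (by rw [hSq.qs2]; exact h (φ b))
    have hRc : {r : S.G | ∀ x, S.q r x = S.zero}.ncard =
        (sqs F).relIndex (⨅ b : Fˣ, normGroup b) := by
      rw [← hker, Subgroup.relIndex_ker, hR, Subgroup.map_comap_eq_self_of_surjective hs]
      rfl
    rw [hV, hRc, hG] at h3
    rcases h3 with h6 | h6
    · left
      have h8 : 2 * m ≤ 2 * (2 * sqClasses F * (sqs F).relIndex (⨅ b : Fˣ, normGroup b)) := by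
        rw [e0]
        calc sqClasses F * (sqs F).relIndex (normGroup a₀)
            ≤ sqClasses F * (4 * (sqs F).relIndex (⨅ b : Fˣ, normGroup b)) :=
              Nat.mul_le_mul_left _ h6
          _ = _ := by ring
      omega
    · right
      intro a
      have h7 := h6 (φ a)
      rw [hV] at h7
      have hsub : sqs F ≤ normGroup a := by
        rw [← hker, ← hcomap a]
        intro x hx
        rw [Subgroup.mem_comap, MonoidHom.mem_ker.1 hx]
        exact Subgroup.one_mem _
      have h8 : (sqs F).relIndex (normGroup a) * (normGroup a).index = sqClasses F :=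
        Subgroup.relIndex_mul_index hsub
      have h9 : 0 < (sqs F).relIndex (normGroup a) := by
        rcases Nat.eq_zero_or_pos ((sqs F).relIndex (normGroup a)) with e | e
        · rw [e, zero_mul] at h8
          omega
        · exact e
      refine Nat.le_of_mul_le_mul_left ?_ h9
      rw [h8, mul_comm]
      exact h7
  · push Not at hgood
    obtain ⟨h1, -⟩ := main32 hSq hSfin 1 (by
      intro y _
      have e1 : {x : S.G | S.q 1 x = S.zero} = Set.univ := by
        ext x
        exact ⟨fun _ => Set.mem_univ _, fun _ => q_one' hSq x⟩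
      rw [e1]
      exact Set.ncard_le_ncard (Set.subset_univ _) Set.finite_univ) (hXle _ (by
      rintro a ⟨h4, -⟩
      rw [← htop] at h4
      exact hgood a h4))
    refine ⟨⟨S, h1, hS⟩, ?_⟩
    rintro ⟨a, ha⟩
    exfalso
    -- the complement of the radical is small
    have e1 : 32 * {y : S.G | ¬ y ∈ Pool.Agent.Q6.EV.Rad hSq}.ncard ≤ Nat.card S.G := by
      refine hXle _ fun b hb => hgood b ?_
      rw [htop]
      by_contra hc
      push Not at hc
      exact hb (Pool.Agent.Q6.EV.mem_Rad hSq |>.2 hc)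
    have : Fintype S.G := Fintype.ofFinite _
    have e2 : Pool.Agent.Q6.EV.Rad hSq = ⊤ := by
      refine eq_top_of_large hSq ?_
      have e3 := Finset.card_filter_add_card_filter_not (s := (Finset.univ : Finset S.G))
        (fun x : S.G => x ∈ Pool.Agent.Q6.EV.Rad hSq)
      have e4 : {y : S.G | ¬ y ∈ Pool.Agent.Q6.EV.Rad hSq}.ncard =
          (Finset.univ.filter (fun x : S.G => ¬ x ∈ Pool.Agent.Q6.EV.Rad hSq)).card := by
        rw [← Set.ncard_coe_finset]
        congr 1
        ext x
        simp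
      rw [e4, Nat.card_eq_fintype_card] at e1
      rw [Finset.card_univ] at e3
      have e5 : 0 < Fintype.card S.G := Fintype.card_pos_iff.2 ⟨1⟩
      omega
    obtain ⟨x, hx⟩ := (htop a).1 ha
    have e6 : φ a ∈ Pool.Agent.Q6.EV.Rad hSq := by rw [e2]; exact Subgroup.mem_top _
    exact hx ((Pool.Agent.Q6.EV.mem_Rad hSq).1 e6 x)

end Pool.Agent.H836.HM
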